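import Pool.Agent.Q89.RF.Nuc

/-! Algebras generated by isometries with orthogonal ranges are nuclear (in the weak sense). -/

set_option autoImplicit false

open scoped ComplexConjugate ComplexOrder InnerProductSpace
open Finset Filter Topology

noncomputable section

namespace Q89.RF

/-- isometries with orthogonal ranges which generate `A` -/
structure CuntzInf {A : Type} [CStarAlgebra A] (s : ℕ → A) : Prop where
  iso : ∀ i, star (s i) * s i = 1
  orth : ∀ i j, i ≠ j → star (s i) * s j = 0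
  gen : (StarAlgebra.adjoin ℂ (Set.range s)).topologicalClosure = ⊤

section words

variable {A : Type} [CStarAlgebra A] (s : ℕ → A)

/-- the product of a word -/
def sw (μ : List ℕ) : A := (μ.map s).prod

@[simp] theorem sw_nil : sw s [] = 1 := by simp [sw]
@[simp] theorem sw_cons (i : ℕ) (μ : List ℕ) : sw s (i :: μ) = s i * sw s μ := by simp [sw]
theorem sw_append (μ ν : List ℕ) : sw s (μ ++ ν) = sw s μ * sw s ν := by simp [sw]

/-- the span of the products `s_α s_β*` -/
def SP : Submodule ℂ A := Submodule.span ℂ {x | ∃ α β, x = sw s α * star (sw s β)}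

variable {s}

theorem sp_mul (hs : CuntzInf s) (i : ℕ) (x : A) (hx : x ∈ SP s) :
    s i * x ∈ SP s ∧ star (s i) * x ∈ SP s := by
  induction hx using Submodule.span_induction with
  | mem x hx =>
    obtain ⟨α, β, rfl⟩ := hx
    refine ⟨Submodule.subset_span ⟨i :: α, β, by rw [sw_cons, mul_assoc]⟩, ?_⟩
    cases α with
    | nil =>
      refine Submodule.subset_span ⟨[], β ++ [i], ?_⟩
      rw [sw_append, sw_cons, sw_nil, mul_one, star_mul, one_mul, one_mul]
    | cons j α =>
      rw [sw_cons, mul_assoc, ← mul_assoc]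
      by_cases hij : i = j
      · subst hij
        rw [hs.iso, one_mul]
        exact Submodule.subset_span ⟨α, β, rfl⟩
      · rw [hs.orth i j hij, zero_mul]
        exact Submodule.zero_mem _
  | zero => rw [mul_zero, mul_zero]; exact ⟨Submodule.zero_mem _, Submodule.zero_mem _⟩
  | add x y _ _ hx hy =>
    rw [mul_add, mul_add]
    exact ⟨Submodule.add_mem _ hx.1 hy.1, Submodule.add_mem _ hx.2 hy.2⟩
  | smul c x _ hx =>
    rw [mul_smul_comm, mul_smul_comm]
    exact ⟨Submodule.smul_mem _ _ hx.1, Submodule.smul_mem _ _ hx.2⟩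

theorem sp_dense (hs : CuntzInf s) (x : A) : x ∈ closure (SP s : Set A) := by
  have key : ∀ x ∈ Algebra.adjoin ℂ (Set.range s ∪ star (Set.range s)), ∀ w ∈ SP s,
      x * w ∈ SP s := by
    intro x hx
    induction hx using Algebra.adjoin_induction with
    | mem y hy =>
      intro w hw
      rcases hy with ⟨i, rfl⟩ | hy
      · exact (sp_mul hs i w hw).1
      · rw [Set.mem_star] at hy
        obtain ⟨i, hi⟩ := hy
        have : y = star (s i) := by rw [hi, star_star]
        rw [this]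
        exact (sp_mul hs i w hw).2
    | algebraMap r =>
      intro w hw
      rw [Algebra.algebraMap_eq_smul_one, smul_mul_assoc, one_mul]
      exact Submodule.smul_mem _ _ hw
    | add y z _ _ hy hz =>
      intro w hw
      rw [add_mul]
      exact Submodule.add_mem _ (hy w hw) (hz w hw)
    | mul y z _ _ hy hz =>
      intro w hw
      rw [mul_assoc]
      exact hy _ (hz w hw)
  have h1 : (1 : A) ∈ SP s := Submodule.subset_span ⟨[], [], by simp⟩
  have hx : x ∈ (StarAlgebra.adjoin ℂ (Set.range s)).topologicalClosure := by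
    rw [hs.gen]; trivial
  have hx2 : x ∈ closure ((StarAlgebra.adjoin ℂ (Set.range s) : StarSubalgebra ℂ A) : Set A) := hx
  refine closure_mono ?_ hx2
  intro y hy
  have := key y hy 1 h1
  rwa [mul_one] at this

end words

/-- the words of length `k` in the letters less than `N` -/
def Wd (N : ℕ) : ℕ → Finset (List ℕ)
  | 0 => {[]}
  | k + 1 => ((range N) ×ˢ Wd N k).image fun p => p.1 :: p.2

theorem Wd_sum {M : Type} [AddCommMonoid M] (N k : ℕ) (f : List ℕ → M) :
    ∑ w ∈ Wd N (k + 1), f w = ∑ i ∈ range N, ∑ w ∈ Wd N k, f (i :: w) := by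
  classical
  rw [Wd, Finset.sum_image, Finset.sum_product]
  rintro ⟨i, w⟩ _ ⟨j, v⟩ _ h
  simp only [List.cons.injEq] at h
  exact Prod.ext h.1 h.2

theorem Wd_mem {N : ℕ} : ∀ {k : ℕ} {w : List ℕ}, w ∈ Wd N k → w.length = k ∧ ∀ i ∈ w, i < N
  | 0, w, h => by
    rw [Wd, Finset.mem_singleton] at h
    subst h
    simp
  | k + 1, w, h => by
    rw [Wd, Finset.mem_image] at h
    obtain ⟨⟨i, v⟩, hp, rfl⟩ := h
    rw [Finset.mem_product, Finset.mem_range] at hp
    obtain ⟨h1, h2⟩ := Wd_mem hp.2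
    refine ⟨by simp [h1], ?_⟩
    intro j hj
    rcases List.mem_cons.1 hj with rfl | hj
    · exact hp.1
    · exact h2 j hj

section maps

variable {A : Type} [CStarAlgebra A] (s : ℕ → A) {K : Type} [NormedAddCommGroup K]
  [InnerProductSpace ℂ K] [CompleteSpace K] (π : A →⋆ₐ[ℂ] (K →L[ℂ] K)) (ζ : K) (N : ℕ)

/-- level maps -/
def Phi (X : A) (k k' : ℕ) : (K →L[ℂ] K) →ₗ[ℂ] A where
  toFun T := ∑ μ ∈ Wd N k, ∑ ν ∈ Wd N k', ⟪π (sw s μ) ζ, T (π (sw s ν) ζ)⟫_ℂ •
    (sw s μ * X * star (sw s ν))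
  map_add' S T := by
    simp only [← Finset.sum_add_distrib]
    refine Finset.sum_congr rfl fun μ _ => Finset.sum_congr rfl fun ν _ => ?_
    rw [add_apply, inner_add_right, add_smul]
  map_smul' c T := by
    simp only [Finset.smul_sum, RingHom.id_apply]
    refine Finset.sum_congr rfl fun μ _ => Finset.sum_congr rfl fun ν _ => ?_
    rw [smul_apply, inner_smul_right, smul_smul]

theorem Phi_apply (X : A) (k k' : ℕ) (T : K →L[ℂ] K) : Phi s π ζ N X k k' T =
    ∑ μ ∈ Wd N k, ∑ ν ∈ Wd N k', ⟪π (sw s μ) ζ, T (π (sw s ν) ζ)⟫_ℂ •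
      (sw s μ * X * star (sw s ν)) := rfl

/-- partial sums -/
def Psi (X : A) (M M' : ℕ) : (K →L[ℂ] K) →ₗ[ℂ] A :=
  ∑ k ∈ range M, ∑ k' ∈ range M', Phi s π ζ N X k k'

theorem Psi_apply (X : A) (M M' : ℕ) (T : K →L[ℂ] K) : Psi s π ζ N X M M' T =
    ∑ k ∈ range M, ∑ k' ∈ range M', Phi s π ζ N X k k' T := by
  rw [Psi]
  simp

variable {s π ζ N}

theorem inner_pi (a b : A) (x y : K) : ⟪π a x, π b y⟫_ℂ = ⟪x, π (star a * b) y⟫_ℂ := by
  rw [map_mul, map_star, ContinuousLinearMap.star_eq_adjoint]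
  exact (ContinuousLinearMap.adjoint_inner_right (π a) x (π b y)).symm

theorem inner_pi' (a : A) (x y : K) : ⟪x, π a y⟫_ℂ = ⟪π (star a) x, y⟫_ℂ := by
  have := inner_pi (π := π) (star a) 1 x y
  rw [star_star, mul_one, map_one] at this
  exact this.symm

variable (hs : CuntzInf s) (hζ : ∀ i < N, π (star (s i)) ζ = 0)

include hs hζ

theorem Phi_zero_left (X : A) (k' : ℕ) (i : ℕ) (hi : i < N) (T : K →L[ℂ] K) :
    Phi s π ζ N X 0 k' (π (s i) * T) = 0 := by
  rw [Phi_apply]
  simp only [Wd, Finset.sum_singleton, sw_nil, map_one]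
  refine Finset.sum_eq_zero fun ν _ => ?_
  change ⟪ζ, π (s i) (T (π (sw s ν) ζ))⟫_ℂ • _ = (0 : A)
  rw [inner_pi', hζ i hi, inner_zero_left, zero_smul]

theorem Phi_succ_left (X : A) (k k' : ℕ) (i : ℕ) (hi : i < N) (T : K →L[ℂ] K) :
    Phi s π ζ N X (k + 1) k' (π (s i) * T) = s i * Phi s π ζ N X k k' T := by
  rw [Phi_apply, Phi_apply, Wd_sum, Finset.sum_eq_single_of_mem i (Finset.mem_range.2 hi)]
  · rw [Finset.mul_sum]
    refine Finset.sum_congr rfl fun μ _ => ?_
    rw [Finset.mul_sum]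
    refine Finset.sum_congr rfl fun ν _ => ?_
    rw [sw_cons, map_mul]
    change ⟪π (s i) (π (sw s μ) ζ), π (s i) (T (π (sw s ν) ζ))⟫_ℂ • _ = _
    rw [inner_pi, hs.iso, map_one, mul_smul_comm]
    simp only [mul_assoc]
    rfl
  · intro j _ hj
    refine Finset.sum_eq_zero fun μ _ => Finset.sum_eq_zero fun ν _ => ?_
    rw [sw_cons, map_mul]
    change ⟪π (s j) (π (sw s μ) ζ), π (s i) (T (π (sw s ν) ζ))⟫_ℂ • _ = (0 : A)
    rw [inner_pi, hs.orth j i hj, map_zero, zero_apply, inner_zero_right, zero_smul]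

theorem Psi_left (X : A) (M' : ℕ) : ∀ (α : List ℕ), (∀ i ∈ α, i < N) → ∀ (M : ℕ) (T : K →L[ℂ] K),
    Psi s π ζ N X M M' (π (sw s α) * T) = sw s α * Psi s π ζ N X (M - α.length) M' T
  | [], _, M, T => by simp
  | i :: α, hα, M, T => by
    have ih := Psi_left X M' α (fun j hj => hα j (List.mem_cons_of_mem _ hj))
    have hi : i < N := hα i (by simp)
    rw [sw_cons, map_mul π, mul_assoc, mul_assoc]
    cases M with
    | zero =>
      have z : ∀ T', Psi s π ζ N X 0 M' T' = 0 := fun T' => by rw [Psi_apply]; simp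
      rw [Nat.zero_sub, z, z, mul_zero, mul_zero]
    | succ M =>
      have e1 : Psi s π ζ N X (M + 1) M' (π (s i) * (π (sw s α) * T)) =
          s i * Psi s π ζ N X M M' (π (sw s α) * T) := by
        rw [Psi_apply, Psi_apply, Finset.sum_range_succ']
        have z : ∑ k' ∈ range M', Phi s π ζ N X 0 k' (π (s i) * (π (sw s α) * T)) = 0 :=
          Finset.sum_eq_zero fun k' _ => Phi_zero_left hs hζ X k' i hi _
        rw [z, add_zero, Finset.mul_sum]
        refine Finset.sum_congr rfl fun k _ => ?_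
        rw [Finset.mul_sum]
        exact Finset.sum_congr rfl fun k' _ => Phi_succ_left hs hζ X k k' i hi _
      rw [e1, ih, List.length_cons, Nat.add_sub_add_right]

omit hs hζ in
theorem Phi_star (X : A) (hX : star X = X) (k k' : ℕ) (T : K →L[ℂ] K) :
    Phi s π ζ N X k k' (star T) = star (Phi s π ζ N X k' k T) := by
  rw [Phi_apply, Phi_apply, star_sum, Finset.sum_comm]
  refine Finset.sum_congr rfl fun ν _ => ?_
  rw [star_sum]
  refine Finset.sum_congr rfl fun μ _ => ?_
  rw [star_smul, star_mul, star_mul, star_star, hX, Complex.star_def, inner_conj_symm, mul_assoc,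
    ContinuousLinearMap.star_eq_adjoint, ContinuousLinearMap.adjoint_inner_right]

omit hs hζ in
theorem Psi_star (X : A) (hX : star X = X) (M M' : ℕ) (T : K →L[ℂ] K) :
    Psi s π ζ N X M M' (star T) = star (Psi s π ζ N X M' M T) := by
  rw [Psi_apply, Psi_apply, star_sum, Finset.sum_comm]
  refine Finset.sum_congr rfl fun k _ => ?_
  rw [star_sum]
  exact Finset.sum_congr rfl fun k' _ => Phi_star X hX _ _ T

theorem Psi_right (X : A) (hX : star X = X) (M M' : ℕ) (β : List ℕ) (hβ : ∀ i ∈ β, i < N)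
    (T : K →L[ℂ] K) : Psi s π ζ N X M M' (T * star (π (sw s β))) =
      Psi s π ζ N X M (M' - β.length) T * star (sw s β) := by
  have h1 : T * star (π (sw s β)) = star (π (sw s β) * star T) := by rw [star_mul, star_star]
  rw [h1, Psi_star X hX, Psi_left hs hζ X M β hβ, star_mul, ← Psi_star X hX, star_star]

theorem onb (h1 : ‖ζ‖ = 1) : ∀ (μ ν : List ℕ), (∀ i ∈ μ, i < N) → (∀ i ∈ ν, i < N) →
    ⟪π (sw s μ) ζ, π (sw s ν) ζ⟫_ℂ = if μ = ν then 1 else 0
  | [], [], _, _ => by
    rw [if_pos rfl, sw_nil, map_one]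
    change ⟪ζ, ζ⟫_ℂ = 1
    rw [inner_self_eq_norm_sq_to_K, h1]; simp
  | [], j :: ν, _, hν => by
    rw [if_neg (by simp), sw_nil, sw_cons, map_one, map_mul]
    change ⟪ζ, π (s j) (π (sw s ν) ζ)⟫_ℂ = 0
    rw [inner_pi', hζ j (hν j (by simp)), inner_zero_left]
  | i :: μ, [], hμ, _ => by
    rw [if_neg (by simp), sw_nil, sw_cons, map_one, map_mul]
    change ⟪π (s i) (π (sw s μ) ζ), ζ⟫_ℂ = 0
    have : ⟪ζ, π (s i) (π (sw s μ) ζ)⟫_ℂ = 0 := by
      rw [inner_pi', hζ i (hμ i (by simp)), inner_zero_left]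
    rw [← inner_conj_symm, this, map_zero]
  | i :: μ, j :: ν, hμ, hν => by
    have ih := onb h1 μ ν (fun k hk => hμ k (List.mem_cons_of_mem _ hk))
      (fun k hk => hν k (List.mem_cons_of_mem _ hk))
    rw [sw_cons, sw_cons, map_mul, map_mul]
    change ⟪π (s i) (π (sw s μ) ζ), π (s j) (π (sw s ν) ζ)⟫_ℂ = _
    rw [inner_pi]
    by_cases hij : i = j
    · subst hij
      rw [hs.iso, map_one]
      change ⟪π (sw s μ) ζ, π (sw s ν) ζ⟫_ℂ = _
      rw [ih]
      simp
    · rw [hs.orth i j hij, map_zero, zero_apply, inner_zero_right, if_neg]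
      intro h
      exact hij (List.cons.inj h).1

omit hs hζ in
/-- iterates of `X ↦ ∑ s_i X s_i*` -/
def LLk (s : ℕ → A) (N : ℕ) (X : A) : ℕ → A
  | 0 => X
  | k + 1 => ∑ i ∈ range N, s i * LLk s N X k * star (s i)

omit hs hζ in
theorem LL_eq (X : A) : ∀ k, ∑ μ ∈ Wd N k, sw s μ * X * star (sw s μ) = LLk s N X k
  | 0 => by simp [Wd, LLk]
  | k + 1 => by
    rw [Wd_sum, LLk]
    refine Finset.sum_congr rfl fun i _ => ?_
    rw [← LL_eq X k, Finset.mul_sum, Finset.sum_mul]
    refine Finset.sum_congr rfl fun μ _ => ?_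
    rw [sw_cons, star_mul]
    simp only [mul_assoc]

theorem Phi_one (h1 : ‖ζ‖ = 1) (X : A) (k k' : ℕ) :
    Phi s π ζ N X k k' 1 = if k = k' then LLk s N X k else 0 := by
  classical
  rw [Phi_apply]
  have e : ∀ μ ∈ Wd N k, ∑ ν ∈ Wd N k', ⟪π (sw s μ) ζ, (1 : K →L[ℂ] K) (π (sw s ν) ζ)⟫_ℂ •
      (sw s μ * X * star (sw s ν)) = if k = k' then sw s μ * X * star (sw s μ) else 0 := by
    intro μ hμ
    have h2 : ∀ ν ∈ Wd N k', ⟪π (sw s μ) ζ, (1 : K →L[ℂ] K) (π (sw s ν) ζ)⟫_ℂ •
        (sw s μ * X * star (sw s ν)) = if μ = ν then sw s μ * X * star (sw s μ) else 0 := by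
      intro ν hν
      change ⟪π (sw s μ) ζ, π (sw s ν) ζ⟫_ℂ • _ = _
      rw [onb hs hζ h1 μ ν (Wd_mem hμ).2 (Wd_mem hν).2]
      by_cases hmn : μ = ν
      · subst hmn; rw [if_pos rfl, if_pos rfl, one_smul]
      · rw [if_neg hmn, if_neg hmn, zero_smul]
    rw [Finset.sum_congr rfl h2, Finset.sum_ite_eq]
    by_cases hk : k = k'
    · subst hk
      rw [if_pos hμ, if_pos rfl]
    · rw [if_neg hk, if_neg]
      intro hμ'
      exact hk ((Wd_mem hμ).1.symm.trans (Wd_mem hμ').1)
  rw [Finset.sum_congr rfl e]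
  by_cases hk : k = k'
  · simp only [if_pos hk]
    exact LL_eq X k
  · simp [if_neg hk]

theorem Psi_one (h1 : ‖ζ‖ = 1) (X : A) (M M' : ℕ) :
    Psi s π ζ N X M M' 1 = ∑ k ∈ range (min M M'), LLk s N X k := by
  classical
  rw [Psi_apply]
  have e : ∀ k ∈ range M, ∑ k' ∈ range M', Phi s π ζ N X k k' 1 =
      if k ∈ range M' then LLk s N X k else 0 := by
    intro k _
    rw [Finset.sum_congr rfl fun k' _ => Phi_one hs hζ h1 X k k', Finset.sum_ite_eq]
  rw [Finset.sum_congr rfl e, ← Finset.sum_filter]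
  refine Finset.sum_congr ?_ fun _ _ => rfl
  ext k
  simp

/-- values on the products -/
theorem Psi_val (h1 : ‖ζ‖ = 1) (X : A) (hX : star X = X) (M : ℕ) (α β : List ℕ)
    (hα : ∀ i ∈ α, i < N) (hβ : ∀ i ∈ β, i < N) :
    Psi s π ζ N X M M (π (sw s α * star (sw s β))) =
      sw s α * (∑ k ∈ range (M - max α.length β.length), LLk s N X k) * star (sw s β) := by
  have e : π (sw s α * star (sw s β)) = π (sw s α) * (1 * star (π (sw s β))) := by
    rw [map_mul, map_star, one_mul]
  rw [e, Psi_left hs hζ X M α hα, Psi_right hs hζ X hX _ _ β hβ, Psi_one hs hζ h1 X, mul_assoc]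
  congr 4
  omega

omit hs hζ in
theorem LL_sub (X Y : A) : ∀ k, LLk s N (X - Y) k = LLk s N X k - LLk s N Y k
  | 0 => rfl
  | k + 1 => by
    rw [LLk, LLk, LLk, ← Finset.sum_sub_distrib]
    refine Finset.sum_congr rfl fun i _ => ?_
    rw [LL_sub X Y k, mul_sub, sub_mul]

omit hs hζ in
theorem LL_shift (X : A) : ∀ k, LLk s N (LLk s N X 1) k = LLk s N X (k + 1)
  | 0 => rfl
  | k + 1 => by
    show ∑ i ∈ range N, s i * LLk s N (LLk s N X 1) k * star (s i) =
      ∑ i ∈ range N, s i * LLk s N X (k + 1) * star (s i)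
    refine Finset.sum_congr rfl fun i _ => ?_
    rw [LL_shift X k]

omit hs hζ in
/-- the defect projection -/
def ee (s : ℕ → A) (N : ℕ) : A := 1 - LLk s N 1 1

omit hs hζ in
theorem tele (G : ℕ) : ∑ k ∈ range G, LLk s N (ee s N) k = 1 - LLk s N 1 G := by
  have : ∀ k, LLk s N (ee s N) k = LLk s N 1 k - LLk s N 1 (k + 1) := by
    intro k
    rw [ee, LL_sub, LL_shift]
  rw [Finset.sum_congr rfl fun k _ => this k, Finset.sum_range_sub']
  rfl

omit hs hζ in
theorem count (m d : ℕ) : ∑ l ∈ range (m + d), (1 - LLk s N 1 (l + 1 - m)) +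
    ∑ g ∈ range (m + d + 1 - m), LLk s N 1 g = ((d + 1 : ℕ) : ℂ) • (1 : A) := by
  induction d with
  | zero =>
    have e1 : ∑ l ∈ range (m + 0), ((1 : A) - LLk s N 1 (l + 1 - m)) = 0 := by
      refine Finset.sum_eq_zero fun l hl => ?_
      rw [Finset.mem_range] at hl
      have : l + 1 - m = 0 := by omega
      rw [this]
      simp [LLk]
    rw [e1, zero_add]
    have : m + 0 + 1 - m = 1 := by omega
    rw [this]
    simp [LLk]
  | succ d ih =>
    have h1 : m + (d + 1) = (m + d) + 1 := by omega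
    have h2 : m + (d + 1) + 1 - m = (m + d + 1 - m) + 1 := by omega
    have h3 : m + d + 1 - m = d + 1 := by omega
    rw [h2, h1, Finset.sum_range_succ, Finset.sum_range_succ, h3]
    rw [h3] at ih
    have : ∑ x ∈ range (m + d), (1 - LLk s N 1 (x + 1 - m)) + (1 - LLk s N 1 (d + 1)) +
        (∑ x ∈ range (d + 1), LLk s N 1 x + LLk s N 1 (d + 1)) =
        (∑ x ∈ range (m + d), (1 - LLk s N 1 (x + 1 - m)) + ∑ x ∈ range (d + 1), LLk s N 1 x)
          + 1 := by abel
    rw [this, ih]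
    push_cast
    module

omit hs hζ in
variable (s π ζ N) in
/-- the approximating maps -/
def theta (L : ℕ) : (K →L[ℂ] K) →ₗ[ℂ] A :=
  ((((L : ℝ) + 1)⁻¹ : ℝ) : ℂ) • (∑ l ∈ range L, Psi s π ζ N (ee s N) (l + 1) (l + 1) +
    Psi s π ζ N 1 (L + 1) (L + 1))

omit hζ in
theorem q_proj : ∀ k, star (LLk s N 1 k) = LLk s N 1 k := by
  intro k
  induction k with
  | zero => simp [LLk]
  | succ k ih =>
    rw [LLk, star_sum]
    refine Finset.sum_congr rfl fun i _ => ?_
    rw [star_mul, star_mul, star_star, ih, mul_assoc]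

omit hζ in
theorem ee_star : star (ee s N) = ee s N := by
  rw [ee, star_sub, star_one, q_proj hs]

omit hζ in
theorem ee_idem : ee s N * ee s N = ee s N := by
  have h1 : LLk s N 1 1 * LLk s N 1 1 = LLk s N 1 1 := by
    have e : LLk s N 1 1 = ∑ i ∈ range N, s i * star (s i) := by
      simp [LLk]
    rw [e, Finset.sum_mul_sum]
    refine Finset.sum_congr rfl fun i hi => ?_
    rw [Finset.sum_eq_single_of_mem i hi]
    · rw [mul_assoc, ← mul_assoc (star (s i)), hs.iso, one_mul]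
    · intro j _ hj
      rw [mul_assoc, ← mul_assoc (star (s i)), hs.orth i j hj.symm, zero_mul, mul_zero]
  rw [ee, sub_mul, one_mul, mul_sub, mul_one, h1]
  abel

theorem theta_val (h1 : ‖ζ‖ = 1) (L : ℕ) (α β : List ℕ) (hα : ∀ i ∈ α, i < N)
    (hβ : ∀ i ∈ β, i < N) (hL : max α.length β.length ≤ L) :
    theta s π ζ N L (π (sw s α * star (sw s β))) =
      ((((L : ℝ) + 1)⁻¹ * (L - max α.length β.length + 1 : ℕ) : ℝ) : ℂ) •
        (sw s α * star (sw s β)) := by
  obtain ⟨d, hd⟩ := Nat.exists_eq_add_of_le hL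
  set m := max α.length β.length with hm
  rw [theta, LinearMap.smul_apply, LinearMap.add_apply, LinearMap.sum_apply]
  have e1 : ∀ l ∈ range L, Psi s π ζ N (ee s N) (l + 1) (l + 1) (π (sw s α * star (sw s β))) =
      sw s α * (1 - LLk s N 1 (l + 1 - m)) * star (sw s β) := by
    intro l _
    rw [Psi_val hs hζ h1 _ (ee_star hs) _ α β hα hβ, ← hm, tele]
  rw [Finset.sum_congr rfl e1, Psi_val hs hζ h1 _ (star_one A) _ α β hα hβ, ← hm,
    ← Finset.sum_mul, ← Finset.mul_sum, ← add_mul, ← mul_add, hd, count, mul_smul_comm,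
    smul_mul_assoc, smul_smul, mul_one]
  congr 1
  have : m + d - m + 1 = d + 1 := by omega
  rw [this]
  push_cast
  ring

/-- complete positivity -/
theorem theta_cp (L : ℕ) : CP2 (theta s π ζ N L) := by
  classical
  have hP : ∀ (X : A) (M : ℕ), star X = X → X * X = X → CP2 (Psi s π ζ N X M M) := by
    intro X M hX hXX
    refine cp2_elem ((range M).sigma fun k => Wd N k) (fun p => π (sw s p.2) ζ)
      (fun p => sw s p.2 * X) _ ?_
    intro T
    rw [Psi_apply, Finset.sum_sigma]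
    refine Finset.sum_congr rfl fun k _ => ?_
    have e : ∀ k', Phi s π ζ N X k k' T = ∑ μ ∈ Wd N k, ∑ ν ∈ Wd N k',
      ⟪π (sw s μ) ζ, T (π (sw s ν) ζ)⟫_ℂ • (sw s μ * X * star (sw s ν * X)) := by
      intro k'
      rw [Phi_apply]
      refine Finset.sum_congr rfl fun μ _ => Finset.sum_congr rfl fun ν _ => ?_
      rw [star_mul, hX, mul_assoc (sw s μ) X (X * _), ← mul_assoc X X, hXX, mul_assoc]
    rw [Finset.sum_congr rfl fun k' _ => e k', Finset.sum_comm]
    refine Finset.sum_congr rfl fun μ _ => ?_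
    rw [Finset.sum_sigma]
  refine CP2.smul ?_ _ (by positivity)
  refine CP2.add (CP2.sum _ _ fun l _ => hP _ _ (ee_star hs) (ee_idem hs)) ?_
  exact hP _ _ (star_one A) (one_mul 1)

theorem theta_one (h1 : ‖ζ‖ = 1) (L : ℕ) : theta s π ζ N L 1 = 1 := by
  have := theta_val hs hζ h1 L [] [] (by simp) (by simp) (by simp)
  rw [sw_nil, star_one, mul_one, map_one] at this
  rw [this]
  have e : (((L : ℝ) + 1)⁻¹ * (L - max ([] : List ℕ).length ([] : List ℕ).length + 1 : ℕ) : ℝ) = 1 := by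
    simp only [List.length_nil, max_self, Nat.sub_zero]
    push_cast
    have : (L : ℝ) + 1 ≠ 0 := by positivity
    field_simp
  rw [e]
  simp

/-- convergence on the products -/
theorem theta_tendsto (h1 : ‖ζ‖ = 1) (α β : List ℕ) (hα : ∀ i ∈ α, i < N)
    (hβ : ∀ i ∈ β, i < N) :
    Tendsto (fun L => theta s π ζ N L (π (sw s α * star (sw s β)))) atTop
      (𝓝 (sw s α * star (sw s β))) := by
  set m := max α.length β.length with hm
  have h2 : Tendsto (fun L : ℕ => (((((L : ℝ) + 1)⁻¹ * (L - m + 1 : ℕ) : ℝ) : ℂ) •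
      (sw s α * star (sw s β)))) atTop (𝓝 ((1 : ℂ) • (sw s α * star (sw s β)))) := by
    refine Tendsto.smul_const ?_ _
    have h3 : Tendsto (fun L : ℕ => 1 - (m : ℝ) * (1 / ((L : ℝ) + 1))) atTop (𝓝 1) := by
      have := (tendsto_one_div_add_atTop_nhds_zero_nat (𝕜 := ℝ)).const_mul (m : ℝ)
      rw [mul_zero] at this
      simpa using this.const_sub 1
    have h4 : Tendsto (fun L : ℕ => (((L : ℝ) + 1)⁻¹ * (L - m + 1 : ℕ) : ℝ)) atTop (𝓝 1) := by
      refine h3.congr' ?_
      filter_upwards [eventually_ge_atTop m] with L hL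
      have : ((L - m + 1 : ℕ) : ℝ) = L - m + 1 := by
        push_cast [Nat.cast_sub hL]; ring
      rw [this]
      have : (L : ℝ) + 1 ≠ 0 := by positivity
      field_simp
      ring
    have := (Complex.continuous_ofReal.tendsto 1).comp h4
    rwa [Complex.ofReal_one] at this
  rw [one_smul] at h2
  refine h2.congr' ?_
  filter_upwards [eventually_ge_atTop m] with L hL
  exact (theta_val hs hζ h1 L α β hα hβ hL).symm

end maps

/-- **Algebras generated by isometries with orthogonal ranges.** -/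
theorem nucLike_cuntz {A : Type} [CStarAlgebra A] {s : ℕ → A} (hs : CuntzInf s) : NucLike A := by
  classical
  intro K _ _ _ _ π F ε hε
  obtain ⟨v, hv⟩ := exists_ne (0 : K)
  have hv0 : ‖v‖ ≠ 0 := norm_ne_zero_iff.2 hv
  set ζ0 : K := ((‖v‖⁻¹ : ℝ) : ℂ) • v with hζ0
  have hζ1 : ‖ζ0‖ = 1 := by
    rw [hζ0, norm_smul, Complex.norm_real, norm_inv, norm_norm, inv_mul_cancel₀ hv0]
  -- the vacuum vectors
  have hvac : ∀ N, (∀ i < N, π (star (s i)) (π (s N) ζ0) = 0) ∧ ‖π (s N) ζ0‖ = 1 := by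
    intro N
    refine ⟨fun i hi => ?_, ?_⟩
    · have : π (star (s i)) (π (s N) ζ0) = π (star (s i) * s N) ζ0 := by rw [map_mul]; rfl
      rw [this, hs.orth i N hi.ne, map_zero]
      rfl
    · have h2 : ⟪π (s N) ζ0, π (s N) ζ0⟫_ℂ = ⟪ζ0, ζ0⟫_ℂ := by
        rw [inner_pi, hs.iso, map_one]; rfl
      rw [inner_self_eq_norm_sq_to_K, inner_self_eq_norm_sq_to_K, hζ1] at h2
      have h3 : ‖π (s N) ζ0‖ ^ 2 = 1 := by
        have : ((‖π (s N) ζ0‖ ^ 2 : ℝ) : ℂ) = ((1 : ℝ) : ℂ) := by
          push_cast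
          simpa using h2
        exact_mod_cast this
      exact (pow_eq_one_iff_of_nonneg (norm_nonneg _) two_ne_zero).1 h3
  -- convergence on the span
  have hsp : ∀ x ∈ SP s, ∃ N0, ∀ N, N0 ≤ N →
      Tendsto (fun L => theta s π (π (s N) ζ0) N L (π x)) atTop (𝓝 x) := by
    intro x hx
    induction hx using Submodule.span_induction with
    | mem x hx =>
      obtain ⟨α, β, rfl⟩ := hx
      refine ⟨(α ++ β).sum + 1, fun N hN => ?_⟩
      refine theta_tendsto hs (hvac N).1 (hvac N).2 α β ?_ ?_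
      · intro i hi
        have := List.le_sum_of_mem (List.mem_append_left β hi)
        omega
      · intro i hi
        have := List.le_sum_of_mem (List.mem_append_right α hi)
        omega
    | zero =>
      refine ⟨0, fun N _ => ?_⟩
      simp only [map_zero]
      exact tendsto_const_nhds
    | add x y _ _ hx hy =>
      obtain ⟨N1, h1⟩ := hx
      obtain ⟨N2, h2⟩ := hy
      refine ⟨max N1 N2, fun N hN => ?_⟩
      simp only [map_add]
      exact (h1 N (le_of_max_le_left hN)).add (h2 N (le_of_max_le_right hN))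
    | smul c x _ hx =>
      obtain ⟨N1, h1⟩ := hx
      refine ⟨N1, fun N hN => ?_⟩
      simp only [map_smul]
      exact (h1 N hN).const_smul c
  have happ : ∀ a : A, ∃ x ∈ SP s, ‖a - x‖ < ε / 3 := by
    intro a
    have := Metric.mem_closure_iff.1 (sp_dense hs a) (ε / 3) (by positivity)
    obtain ⟨x, hx, h⟩ := this
    exact ⟨x, hx, by rwa [dist_eq_norm] at h⟩
  choose x hx hax using happ
  choose! N0 hN0 using hsp
  set N := F.sup fun a => N0 (x a) with hN
  have hev : ∀ᶠ L in atTop, ∀ a ∈ F, ‖theta s π (π (s N) ζ0) N L (π (x a)) - x a‖ < ε / 3 := by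
    rw [Finset.eventually_all]
    intro a ha
    have h1 := hN0 (x a) (hx a) N (Finset.le_sup (f := fun a => N0 (x a)) ha)
    have h2 := Metric.tendsto_nhds.1 h1 (ε / 3) (by positivity)
    filter_upwards [h2] with L hL
    rwa [dist_eq_norm] at hL
  obtain ⟨L, hL⟩ := hev.exists
  have hcp := theta_cp hs (hvac N).1 L
  have h1 := theta_one hs (hvac N).1 (hvac N).2 L
  refine ⟨theta s π (π (s N) ζ0) N L, hcp, fun a ha => ?_⟩
  set θ := theta s π (π (s N) ζ0) N L with hθ
  have e : θ (π a) - a = θ (π (a - x a)) + (θ (π (x a)) - x a) - (a - x a) := by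
    rw [map_sub, map_sub]; abel
  rw [e]
  have h2 : ‖θ (π (a - x a))‖ < ε / 3 :=
    ((hcp.contr h1 _).trans (NonUnitalStarAlgHom.norm_apply_le π _)).trans_lt (hax a)
  calc ‖θ (π (a - x a)) + (θ (π (x a)) - x a) - (a - x a)‖
      ≤ ‖θ (π (a - x a)) + (θ (π (x a)) - x a)‖ + ‖a - x a‖ := norm_sub_le _ _
    _ ≤ ‖θ (π (a - x a))‖ + ‖θ (π (x a)) - x a‖ + ‖a - x a‖ := by
        gcongr; exact norm_add_le _ _
    _ < ε / 3 + ε / 3 + ε / 3 := by
        gcongr
        · exact hL a ha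
        · exact hax a
    _ = ε := by ring

end Q89.RF
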