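import Pool.Agent.H923R2.FZ.All

/-! Existence of reduced free products of arbitrary states (Voiculescu's construction). -/

set_option autoImplicit false

open scoped ComplexConjugate ComplexOrder

noncomputable section

namespace Q89.RF

open Pool.Agent.H923R2 Pool.Agent.H923R2.FZ

/-- a state -/
structure IsSt {A : Type} [CStarAlgebra A] (φ : A →ₗ[ℂ] ℂ) : Prop where
  one : φ 1 = 1
  pos : ∀ x, 0 ≤ φ (star x * x)

/-- the GNS representation on `ℓ²(Option I)` with cyclic vector `δ_none` -/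
theorem exg (D : Type) [CStarAlgebra D] (t : D →ₗ[ℂ] ℂ) (ht : IsSt t) :
    ∃ (I : Type) (lam : D →⋆ₐ[ℂ] (l2 (Option I) →L[ℂ] l2 (Option I))),
    (∀ x, inner ℂ (dl2 (none : Option I)) (lam x (dl2 none)) = t x) ∧
    ∀ ξ : l2 (Option I), (∀ x, inner ℂ ξ (lam x (dl2 none)) = 0) → ξ = 0 := by
  classical
  let _ : PartialOrder D := CStarAlgebra.spectralOrder D
  have _ : StarOrderedRing D := CStarAlgebra.spectralOrderedRing D
  let f : D →ₚ[ℂ] ℂ := PositiveLinearMap.mk₀ t (by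
    intro x hx
    obtain ⟨y, rfl⟩ := CStarAlgebra.nonneg_iff_eq_star_mul_self.mp hx
    exact ht.pos y)
  have hf : ∀ x, f x = t x := fun _ => rfl
  let ζ : f.GNS := ((f.toPreGNS 1 : f.PreGNS) : f.GNS)
  have hpi : ∀ x, f.gnsStarAlgHom x ζ = ((f.toPreGNS x : f.PreGNS) : f.GNS) := by
    intro x
    show f.gnsNonUnitalStarAlgHom x ((f.toPreGNS 1 : f.PreGNS) : f.GNS) = _
    rw [PositiveLinearMap.gnsNonUnitalStarAlgHom_apply_coe,
      PositiveLinearMap.leftMulMapPreGNS_apply]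
    simp
  have hin : ∀ x y, inner ℂ ((f.toPreGNS x : f.PreGNS) : f.GNS) ((f.toPreGNS y : f.PreGNS) : f.GNS)
      = t (star x * y) := by
    intro x y
    rw [UniformSpace.Completion.inner_coe, PositiveLinearMap.preGNS_inner_def]
    rfl
  have hnorm : ‖ζ‖ = 1 := by
    have h1 : inner ℂ ζ ζ = (1 : ℂ) := by
      rw [hin]
      simp [ht.one]
    rw [inner_self_eq_norm_sq_to_K] at h1
    have h2 : ((‖ζ‖ ^ 2 : ℝ) : ℂ) = 1 := by
      rw [← h1]
      push_cast
      rfl
    have h3 : ‖ζ‖ ^ 2 = 1 := by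
      have h4 := congrArg Complex.re h2
      rwa [Complex.ofReal_re, Complex.one_re] at h4
    nlinarith [norm_nonneg ζ]
  have hon : Orthonormal ℂ ((↑) : ({ζ} : Set f.GNS) → f.GNS) := by
    refine ⟨?_, ?_⟩
    · rintro ⟨x, hx⟩
      rw [Set.mem_singleton_iff] at hx
      subst hx
      exact hnorm
    · rintro ⟨x, hx⟩ ⟨y, hy⟩ hxy
      exfalso
      apply hxy
      rw [Set.mem_singleton_iff] at hx hy
      subst hx
      exact Subtype.ext hy.symm
  obtain ⟨s, b, hs, hb⟩ := hon.exists_hilbertBasis_extension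
  have hζs : ζ ∈ s := hs rfl
  let z0 : s := ⟨ζ, hζs⟩
  let I : Type := {x : s // x ≠ z0}
  let eq : Option I ≃ s := Equiv.optionSubtypeNe z0
  let v : Option I → f.GNS := fun o => b (eq o)
  have hvo : Orthonormal ℂ v := b.orthonormal.comp eq eq.injective
  have hrange : Set.range v = Set.range b := eq.surjective.range_comp b
  let b' : HilbertBasis (Option I) ℂ f.GNS := HilbertBasis.mk hvo (by
    rw [hrange]
    exact b.dense_span.ge)
  have hb' : ∀ o, b' o = v o := fun o => congrFun (HilbertBasis.coe_mk hvo _) o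
  have hnone : b' none = ζ := by
    rw [hb']
    show b (eq none) = ζ
    have : eq none = z0 := Equiv.optionSubtypeNe_none z0
    rw [this, hb]
  let U : f.GNS ≃ₗᵢ[ℂ] l2 (Option I) := b'.repr
  have hU : U ζ = dl2 none := by
    show b'.repr ζ = _
    rw [← hnone]
    have := b'.repr_self none
    rw [this]
    exact T_EXG.single_eq_dl2 _
  have hUs : U.symm (dl2 none) = ζ := by
    rw [← hU, LinearIsometryEquiv.symm_apply_apply]
  refine ⟨I, (U.conjStarAlgEquiv : (f.GNS →L[ℂ] f.GNS) →⋆ₐ[ℂ] _).comp f.gnsStarAlgHom, ?_, ?_⟩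
  · intro x
    show inner ℂ (dl2 none) (U.conjStarAlgEquiv (f.gnsStarAlgHom x) (dl2 none)) = _
    rw [LinearIsometryEquiv.conjStarAlgEquiv_apply_apply, hUs, ← hU,
      LinearIsometryEquiv.inner_map_map, hpi, hin]
    simp
  · intro ξ h
    have h1 : ∀ x, inner ℂ (U.symm ξ) ((f.toPreGNS x : f.PreGNS) : f.GNS) = 0 := by
      intro x
      have h2 := h x
      change inner ℂ ξ (U.conjStarAlgEquiv (f.gnsStarAlgHom x) (dl2 none)) = 0 at h2
      rw [LinearIsometryEquiv.conjStarAlgEquiv_apply_apply, hUs, hpi] at h2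
      rw [← LinearIsometryEquiv.inner_map_map U, LinearIsometryEquiv.apply_symm_apply]
      exact h2
    have h3 : ∀ y : f.GNS, inner ℂ (U.symm ξ) y = 0 := by
      intro y
      induction y using UniformSpace.Completion.induction_on with
      | hp => exact isClosed_eq (by fun_prop) (by fun_prop)
      | ih a => exact h1 (f.ofPreGNS a)
    have h4 : U.symm ξ = 0 := inner_self_eq_zero.mp (h3 _)
    have h5 := congrArg U h4
    rwa [LinearIsometryEquiv.apply_symm_apply, map_zero] at h5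

open T_EX in
/-- **Existence of reduced free products.** -/
theorem exists_rfp (K : Type) (D : K → Type) [inst : ∀ k, CStarAlgebra (D k)]
    (t : ∀ k, D k →ₗ[ℂ] ℂ) (ht : ∀ k, IsSt (t k)) :
    ∃ (A : Type) (_ : CStarAlgebra A) (φ : A →ₗ[ℂ] ℂ) (e : ∀ k, D k →⋆ₐ[ℂ] A),
      IsRFP D (fun k => (t k : D k → ℂ)) φ e := by
  classical
  choose I lam hlam1 hlam2 using fun k => exg (D k) (t k) (ht k)
  obtain ⟨Lam, hLam⟩ := T_EXL.t_EXL T_AMP.t_AMP K D inst I lam
  obtain ⟨h1, h2⟩ := T_EXF.t_EXF K D inst I t lam Lam hlam1 hLam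
  have h3 := T_EXC.t_EXC K D inst I lam Lam hlam2 hLam
  set Ω : l2 (Wd I) := dl2 (Wd.nil I) with hΩdef
  have hΩ : ‖Ω‖ = 1 := by
    rw [hΩdef]
    unfold dl2
    rw [lp.norm_single (by norm_num)]
    simp
  refine ⟨MM Lam, inferInstance, T_EX.tt Ω Lam, T_EX.ee Lam, ?_⟩
  constructor
  · change vf Ω (1 : l2 (Wd I) →L[ℂ] l2 (Wd I)) = 1
    rw [vf_apply]
    change inner ℂ Ω Ω = 1
    rw [inner_self_eq_norm_sq_to_K, hΩ]; simp
  · intro x
    change 0 ≤ (vf Ω (star x.1 * x.1))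
    rw [vf_star_mul, inner_self_eq_norm_sq_to_K]
    have h4 : ((‖x.1 Ω‖ : ℂ)) ^ 2 = ((‖x.1 Ω‖ ^ 2 : ℝ) : ℂ) := by push_cast; rfl
    change 0 ≤ ((‖x.1 Ω‖ : ℂ)) ^ 2
    rw [h4, Complex.zero_le_real]
    positivity
  · exact h1
  · intro w hne hc hz
    change vf Ω ((w.map fun z => T_EX.ee Lam z.1 z.2).prod).1 = 0
    rw [coe_prod, List.map_map]
    exact h2 w hne hc hz
  · rw [eq_top_iff]
    intro m _
    change m ∈ closure ((StarAlgebra.adjoin ℂ (⋃ k, Set.range (T_EX.ee Lam k)) :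
      StarSubalgebra ℂ (MM Lam)) : Set (MM Lam))
    rw [closure_subtype]
    have hm : m.1 ∈ closure (S0 Lam : Set _) := m.2
    refine closure_mono ?_ hm
    have h5 := StarAlgHom.map_adjoin (MM Lam).subtype (⋃ k, Set.range (T_EX.ee Lam k))
    have h6 : (MM Lam).subtype '' (⋃ k, Set.range (T_EX.ee Lam k)) = ⋃ k, Set.range (Lam k) := by
      rw [Set.image_iUnion]
      refine Set.iUnion_congr fun k => ?_
      rw [← Set.range_comp]
      rfl
    rw [h6] at h5
    have h7 : S0 Lam = (StarAlgebra.adjoin ℂ (⋃ k, Set.range (T_EX.ee Lam k))).map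
      (MM Lam).subtype := h5.symm
    rw [h7]
    rintro _ ⟨x, hx, rfl⟩
    exact ⟨x, hx, rfl⟩
  · intro a ha
    have hle : ∀ y ∈ S0 Lam, y ∈ MM Lam := fun y hy => (S0 Lam).le_topologicalClosure hy
    have hTy : ∀ y ∈ S0 Lam, a.1 (y Ω) = 0 := by
      intro y hy
      have h4 := ha ⟨y, hle y hy⟩
      change vf Ω (star (a.1 * y) * (a.1 * y)) = 0 at h4
      rw [vf_star_mul] at h4
      exact inner_self_eq_zero.1 h4
    apply Subtype.ext
    change a.1 = 0
    ext1 ξ
    rw [zero_apply]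
    rw [← norm_le_zero_iff]
    refine le_of_forall_pos_le_add fun ε hε => ?_
    obtain ⟨y, hy, hyε⟩ := h3 ξ (ε / (‖a.1‖ + 1)) (by positivity)
    have : a.1 ξ = a.1 (ξ - y Ω) := by
      rw [map_sub, hTy y hy, sub_zero]
    rw [this, zero_add]
    calc ‖a.1 (ξ - y Ω)‖ ≤ ‖a.1‖ * ‖ξ - y Ω‖ := a.1.le_opNorm _
      _ ≤ (‖a.1‖ + 1) * (ε / (‖a.1‖ + 1)) := by
          gcongr
          linarith [norm_nonneg a.1]
      _ = ε := by
          have := norm_nonneg a.1
          field_simp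

end Q89.RF
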