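import Mathlib

/-! Positive functionals. -/

set_option autoImplicit false

open scoped ComplexConjugate ComplexOrder InnerProductSpace

noncomputable section

namespace Q89.RF

variable {A : Type} [CStarAlgebra A]

/-- positive functional -/
def PF (ψ : A →ₗ[ℂ] ℂ) : Prop := ∀ x, 0 ≤ ψ (star x * x)

theorem PF.star {ψ : A →ₗ[ℂ] ℂ} (h : PF ψ) (a : A) : ψ (star a) = conj (ψ a) := by
  have h1 := h (1 + a)
  have h2 := h (1 + Complex.I • a)
  have h3 := h 1
  have h4 := h a
  have e1 : ψ (Star.star (1 + a) * (1 + a)) = ψ 1 + ψ a + ψ (Star.star a) +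
      ψ (Star.star a * a) := by
    rw [star_add, star_one, add_mul, one_mul, mul_add, mul_one, map_add, map_add, map_add]
    ring
  have e2 : ψ (Star.star (1 + Complex.I • a) * (1 + Complex.I • a)) =
      ψ 1 + Complex.I * ψ a - Complex.I * ψ (Star.star a) + ψ (Star.star a * a) := by
    rw [star_add, star_one, star_smul, add_mul, one_mul, mul_add, mul_one, map_add, map_add,
      map_add, map_smul, map_smul, smul_mul_assoc, mul_smul_comm, smul_smul, map_smul]
    simp only [Complex.star_def, Complex.conj_I, smul_eq_mul]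
    have : -Complex.I * Complex.I = 1 := by rw [neg_mul, Complex.I_mul_I, neg_neg]
    rw [this]
    ring
  rw [e1] at h1
  rw [e2] at h2
  rw [star_one, one_mul] at h3
  obtain ⟨-, h1⟩ := Complex.nonneg_iff.1 h1
  obtain ⟨-, h2⟩ := Complex.nonneg_iff.1 h2
  obtain ⟨-, h3⟩ := Complex.nonneg_iff.1 h3
  obtain ⟨-, h4⟩ := Complex.nonneg_iff.1 h4
  simp only [Complex.add_im, Complex.sub_im, Complex.mul_im, Complex.I_re, Complex.I_im, zero_mul,
    one_mul, zero_add] at h1 h2
  apply Complex.ext
  · rw [Complex.conj_re]; linarith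
  · rw [Complex.conj_im]; linarith

/-- Cauchy–Schwarz -/
theorem PF.cs {ψ : A →ₗ[ℂ] ℂ} (h : PF ψ) (x y : A) :
    ‖ψ (Star.star x * y)‖ ^ 2 ≤ (ψ (Star.star x * x)).re * (ψ (Star.star y * y)).re := by
  let _ : PartialOrder A := CStarAlgebra.spectralOrder A
  have : StarOrderedRing A := CStarAlgebra.spectralOrderedRing A
  let f : A →ₚ[ℂ] ℂ := PositiveLinearMap.mk₀ ψ (by
    intro a ha
    obtain ⟨b, rfl⟩ := CStarAlgebra.nonneg_iff_eq_star_mul_self.1 ha
    exact h b)
  have h1 := norm_inner_le_norm (𝕜 := ℂ) (f.toPreGNS x) (f.toPreGNS y)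
  rw [PositiveLinearMap.preGNS_inner_def, PositiveLinearMap.preGNS_norm_def,
    PositiveLinearMap.preGNS_norm_def] at h1
  change ‖ψ (Star.star x * y)‖ ≤ Real.sqrt (ψ (Star.star x * x)).re *
    Real.sqrt (ψ (Star.star y * y)).re at h1
  have h2 := (Complex.nonneg_iff.1 (h x)).1
  have h3 := (Complex.nonneg_iff.1 (h y)).1
  calc ‖ψ (Star.star x * y)‖ ^ 2 ≤ (Real.sqrt (ψ (Star.star x * x)).re *
        Real.sqrt (ψ (Star.star y * y)).re) ^ 2 := by gcongr
    _ = _ := by rw [mul_pow, Real.sq_sqrt h2, Real.sq_sqrt h3]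

/-- continuity -/
theorem PF.cont {ψ : A →ₗ[ℂ] ℂ} (h : PF ψ) : Continuous ψ := by
  let _ : PartialOrder A := CStarAlgebra.spectralOrder A
  have : StarOrderedRing A := CStarAlgebra.spectralOrderedRing A
  let f : A →ₚ[ℂ] ℂ := PositiveLinearMap.mk₀ ψ (by
    intro a ha
    obtain ⟨b, rfl⟩ := CStarAlgebra.nonneg_iff_eq_star_mul_self.1 ha
    exact h b)
  obtain ⟨C, hC⟩ := f.exists_norm_apply_le
  exact AddMonoidHomClass.continuous_of_bound ψ C fun x => hC x

/-- pure: every dominated positive functional is a multiple -/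
def Pure (φ : A →ₗ[ℂ] ℂ) : Prop :=
  ∀ ψ : A →ₗ[ℂ] ℂ, PF ψ → (∀ x, ψ (Star.star x * x) ≤ φ (Star.star x * x)) →
    ∃ c : ℂ, ∀ x, ψ x = c * φ x

/-- the centralizer -/
def Cen (φ : A →ₗ[ℂ] ℂ) (u : A) : Prop := ∀ a, φ (u * a) = φ (a * u)

theorem Cen.star {φ : A →ₗ[ℂ] ℂ} (h : PF φ) {u : A} (hu : Cen φ u) : Cen φ (star u) := by
  intro a
  have h1 := congrArg conj (hu (Star.star a))
  rw [← h.star, ← h.star, star_mul, star_mul, star_star] at h1
  exact h1.symm

/-- **A state with a nontrivial unitary in its centralizer is not pure.** -/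
theorem not_pure {φ : A →ₗ[ℂ] ℂ} (h : PF φ) (h1 : φ 1 = 1) {u : A} (hu : Cen φ u)
    (hu1 : star u * u = 1) (hu2 : u * star u = 1) (h0 : φ u = 0) (hne : φ (u * u) ≠ -1) :
    ¬ Pure φ := by
  intro hp
  have hus := hu.star h
  have h0' : φ (star u) = 0 := by rw [h.star, h0, map_zero]
  -- the functional
  let k : A := (1 / 2 : ℂ) • (1 + u)
  let m : A := (1 / 2 : ℂ) • (1 - u)
  have hhalf : star (1 / 2 : ℂ) = 1 / 2 := by
    have e : (1 / 2 : ℂ) = ((1 / 2 : ℝ) : ℂ) := by push_cast; ring
    rw [e, Complex.star_def, Complex.conj_ofReal]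
  have hk : star k * k = (1 / 2 : ℂ) • 1 + (1 / 4 : ℂ) • (u + star u) := by
    simp only [k]
    rw [star_smul, smul_mul_smul_comm, hhalf, star_add, star_one, add_mul, mul_add, mul_add,
      one_mul, one_mul, mul_one, hu1]
    module
  have hm : star m * m = (1 / 2 : ℂ) • 1 - (1 / 4 : ℂ) • (u + star u) := by
    simp only [m]
    rw [star_smul, smul_mul_smul_comm, hhalf, star_sub, star_one, sub_mul, mul_sub, mul_sub,
      one_mul, one_mul, mul_one, hu1]
    module
  have hck : ∀ a, φ (star k * a) = φ (a * star k) := by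
    intro a
    simp only [k]
    rw [star_smul, star_add, star_one, smul_mul_assoc, mul_smul_comm, add_mul, mul_add, one_mul,
      mul_one, map_smul, map_smul, map_add, map_add, hus a]
  have hcm : ∀ a, φ (star m * a) = φ (a * star m) := by
    intro a
    simp only [m]
    rw [star_smul, star_sub, star_one, smul_mul_assoc, mul_smul_comm, sub_mul, mul_sub, one_mul,
      mul_one, map_smul, map_smul, map_sub, map_sub, hus a]
  let ψ : A →ₗ[ℂ] ℂ := φ.comp (LinearMap.mulLeft ℂ (star k * k))
  have hψ : ∀ a, ψ a = φ (star k * k * a) := fun a => rfl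
  have hψp : PF ψ := by
    intro x
    rw [hψ, mul_assoc, hck]
    have := h (x * star k)
    rw [star_mul, star_star] at this
    simpa only [mul_assoc] using this
  have hψle : ∀ x, ψ (Star.star x * x) ≤ φ (Star.star x * x) := by
    intro x
    have e : φ (Star.star x * x) = ψ (Star.star x * x) + φ (star m * m * (Star.star x * x)) := by
      rw [hψ, ← map_add, ← add_mul, hk, hm]
      congr 1
      have : (1 / 2 : ℂ) • (1 : A) + (1 / 4 : ℂ) • (u + star u) +
        ((1 / 2 : ℂ) • 1 - (1 / 4 : ℂ) • (u + star u)) = 1 := by module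
      rw [this, one_mul]
    rw [e]
    refine le_add_of_nonneg_right ?_
    rw [mul_assoc, hcm]
    have := h (x * star m)
    rw [star_mul, star_star] at this
    simpa only [mul_assoc] using this
  obtain ⟨c, hc⟩ := hp ψ hψp hψle
  have h2 := hc (star u)
  rw [h0', mul_zero, hψ, hk, add_mul, smul_mul_assoc, smul_mul_assoc, one_mul, add_mul, hu2,
    map_add, map_smul, map_smul, map_add, h0', smul_zero, zero_add, h1] at h2
  have h3 : φ (star u * star u) = -1 := by
    have : (1 / 4 : ℂ) * (1 + φ (star u * star u)) = 0 := h2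
    rcases mul_eq_zero.1 this with h4 | h4
    · norm_num at h4
    · linear_combination h4
  rw [← star_mul, h.star] at h3
  apply hne
  have := congrArg conj h3
  rw [Complex.conj_conj] at this
  rw [this]
  simp

end Q89.RF
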