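import Pool.Agent.Q89.RF.Ex
import Pool.Agent.Q89.RF.Pos
import Pool.Agent.TH254.FP.Gns

/-! Purity of free product states, and centralizers. -/

set_option autoImplicit false

open scoped ComplexConjugate ComplexOrder InnerProductSpace

noncomputable section

namespace Q89.RF

open Pool.Agent.H923R2.FZ (IsRFP)
open Pool.Agent.TH254.FP (Free Alt vl vl_nil vl_cons vl_append adw vl_adw SW SW_dense Rep exists_rep)

variable {J : Type} {D : J → Type} [∀ j, CStarAlgebra (D j)] {t : ∀ j, D j →ₗ[ℂ] ℂ}
  {A : Type} [CStarAlgebra A] {φ : A →ₗ[ℂ] ℂ} {e : ∀ j, D j →⋆ₐ[ℂ] A}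

/-- the images -/
abbrev SS (e : ∀ j, D j →⋆ₐ[ℂ] A) : J → StarSubalgebra ℂ A := fun j => (e j).range

theorem free_of (h : IsRFP D (fun j => (t j : D j → ℂ)) φ e) : Free φ (SS e) := by
  intro l hl hA
  choose! f hf using (fun (j : J) (x : A) (hx : x ∈ (e j).range) =>
    (show ∃ y : D j, e j y = x from hx))
  have h2 := h.free (l.map fun p => ⟨p.1, f p.1 p.2⟩) (by simpa using hl)
    (by
      rw [List.isChain_map]
      exact hA.alt)
    (by
      intro z hz
      obtain ⟨p, hp, rfl⟩ := List.mem_map.1 hz
      have h4 := hA.cen p hp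
      rw [← hf _ _ (hA.mem p hp), h.tr] at h4
      exact h4)
  rw [List.map_map] at h2
  rw [vl, ← h2]
  congr 2
  refine List.map_congr_left fun p hp => ?_
  exact (hf _ _ (hA.mem p hp)).symm

theorem gen_of (h : IsRFP D (fun j => (t j : D j → ℂ)) φ e) :
    (StarAlgebra.adjoin ℂ (⋃ i, (SS e i : Set A))).topologicalClosure = ⊤ := by
  rw [← h.gen]
  congr 2

theorem pos_of {φ : A →ₗ[ℂ] ℂ} (h : PF φ) (a : A) : ∃ r : ℝ, 0 ≤ r ∧ φ (star a * a) = r := by
  obtain ⟨h2, h3⟩ := Complex.nonneg_iff.1 (h a)
  exact ⟨(φ (star a * a)).re, h2, Complex.ext rfl (by rw [← h3]; simp)⟩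

theorem alt_nil {S : J → StarSubalgebra ℂ A} : Alt φ S ([] : List (J × A)) :=
  ⟨by simp, by simp, List.isChain_nil⟩

theorem alt_cons {S : J → StarSubalgebra ℂ A} {j : J} {x : A} {l : List (J × A)}
    (hx : x ∈ S j) (h0 : φ x = 0) (hl : Alt φ S l) (hj : ∀ q ∈ l.head?, q.1 ≠ j) :
    Alt φ S ((j, x) :: l) := by
  refine ⟨?_, ?_, ?_⟩
  · intro p hp
    rcases List.mem_cons.1 hp with rfl | hp
    · exact hx
    · exact hl.mem p hp
  · intro p hp
    rcases List.mem_cons.1 hp with rfl | hp
    · exact h0
    · exact hl.cen p hp
  · cases l with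
    | nil => exact List.isChain_singleton _
    | cons q l => exact List.isChain_cons_cons.2 ⟨(hj q (by simp)).symm, hl.alt⟩

/-- agreement on words -/
theorem ext_words (h : IsRFP D (fun j => (t j : D j → ℂ)) φ e) {f g : A →ₗ[ℂ] ℂ}
    (hf : Continuous f) (hg : Continuous g)
    (hfg : ∀ l, Alt φ (SS e) l → f (vl l) = g (vl l)) (x : A) : f x = g x := by
  have h1 := SW_dense h.one (gen_of h)
  have h2 : ∀ y ∈ SW φ (SS e), f y = g y := by
    intro y hy
    induction hy using Submodule.span_induction with
    | mem x hx => obtain ⟨l, hl, rfl⟩ := hx; exact hfg l hl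
    | zero => rw [map_zero, map_zero]
    | add x y _ _ hx hy => rw [map_add, map_add, hx, hy]
    | smul c x _ hx => rw [map_smul, map_smul, hx]
  have hcl : IsClosed {a : A | f a = g a} := isClosed_eq hf hg
  have hx : x ∈ (SW φ (SS e)).topologicalClosure := by rw [h1]; trivial
  exact hcl.closure_subset_iff.2 h2 hx

/-- **The free product of pure states is pure.** -/
theorem pure_rfp (h : IsRFP D (fun j => (t j : D j → ℂ)) φ e) (hp : ∀ j, Pure (t j)) :
    Pure φ := by
  intro ψ hψ hle
  have hφ : PF φ := h.nonneg
  have hF := free_of h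
  have hst : ∀ a, φ (star a) = conj (φ a) := hφ.star
  -- the key identity
  have key : ∀ (j : J) (b : D j) (l : List (J × A)), t j b = 0 → Alt φ (SS e) l →
      (∀ q ∈ l.head?, q.1 ≠ j) → ψ (e j b * vl l) = 0 := by
    intro j b l hb hl hj
    set w := vl l with hw
    have hbm : ∀ c : D j, e j c ∈ SS e j := fun c => ⟨c, rfl⟩
    -- expectations
    have hcen : ∀ (c : D j) (z : A), t j c = 0 → (∃ α β : ℂ, z = α • 1 + β • w) →
        φ (star z * e j c * z) = 0 := by
      rintro c z hc ⟨α, β, rfl⟩
      have hx0 : φ (e j c) = 0 := by rw [h.tr]; exact hc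
      have a1 : Alt φ (SS e) ((j, e j c) :: l) := alt_cons (hbm c) hx0 hl hj
      have a2 : Alt φ (SS e) [(j, e j c)] := alt_cons (hbm c) hx0 alt_nil (by simp)
      have b1 : φ (e j c * w) = 0 := by
        have := hF _ (by simp) a1
        rwa [vl_cons] at this
      have b2 : φ (star w * e j c) = 0 := by
        have := hF.orth hst hl a2 (Or.inr (by simp)) (by
          intro p hp q hq
          simp only [List.head?_cons, Option.mem_def, Option.some.injEq] at hq
          subst hq
          exact hj p hp)
        rwa [vl_cons, vl_nil, mul_one] at this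
      have b3 : φ (star w * e j c * w) = 0 := by
        have := hF.orth hst hl a1 (Or.inr (by simp)) (by
          intro p hp q hq
          simp only [List.head?_cons, Option.mem_def, Option.some.injEq] at hq
          subst hq
          exact hj p hp)
        rwa [vl_cons, ← mul_assoc] at this
      have e1 : star (α • (1 : A) + β • w) * e j c * (α • (1 : A) + β • w) =
          (conj α * α) • e j c + (conj α * β) • (e j c * w) + (conj β * α) • (star w * e j c) +
          (conj β * β) • (star w * e j c * w) := by
        rw [star_add, star_smul, star_smul, star_one]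
        simp only [add_mul, mul_add, smul_mul_assoc, mul_smul_comm, one_mul, mul_one, smul_smul,
          smul_add, Complex.star_def]
        module
      rw [e1, map_add, map_add, map_add, map_smul, map_smul, map_smul, map_smul, hx0, b1, b2, b3]
      simp
    have hexp : ∀ (c : D j) (z : A), (∃ α β : ℂ, z = α • 1 + β • w) →
        φ (star z * e j c * z) = t j c * φ (star z * z) := by
      intro c z hz
      have h1 := hcen (c - t j c • 1) z (by
        rw [map_sub, map_smul]
        have : t j 1 = 1 := by
          have := h.tr j 1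
          rw [map_one, h.one] at this
          exact this.symm
        rw [this, smul_eq_mul, mul_one, sub_self]) hz
      rw [map_sub, map_smul, map_one, mul_sub, sub_mul, mul_smul_comm, smul_mul_assoc, mul_one,
        map_sub, map_smul, smul_eq_mul] at h1
      exact sub_eq_zero.1 h1
    -- the compressed functional is a multiple
    have hG : ∀ z : A, (∃ α β : ℂ, z = α • 1 + β • w) → ψ (star z * e j b * z) = 0 := by
      intro z hz
      set C : ℝ := (φ (star z * z)).re with hC
      have hC0 : 0 ≤ C := (Complex.nonneg_iff.1 (hφ z)).1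
      have hCz : φ (star z * z) = C := by
        obtain ⟨r, hr, hr2⟩ := pos_of hφ z
        rw [hC, hr2, Complex.ofReal_re]
      let G : D j →ₗ[ℂ] ℂ := (((C + 1)⁻¹ : ℝ) : ℂ) •
        (ψ.comp ((LinearMap.mulLeft ℂ (star z)).comp
          ((LinearMap.mulRight ℂ z).comp ((e j : D j →ₐ[ℂ] A) : D j →ₗ[ℂ] A))))
      have hGa : ∀ c, G c = (((C + 1)⁻¹ : ℝ) : ℂ) * ψ (star z * (e j c * z)) := fun c => rfl
      have hsq : ∀ c : D j, star z * (e j (star c * c) * z) = star (e j c * z) * (e j c * z) := by
        intro c
        rw [star_mul, map_mul, map_star]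
        simp only [mul_assoc]
      have hGp : PF G := by
        intro c
        rw [hGa, hsq]
        exact mul_nonneg (by rw [Complex.zero_le_real]; positivity) (hψ _)
      obtain ⟨κ, hκ⟩ := hp j G hGp (by
        intro c
        rw [hGa, hsq]
        have h1 := hle (e j c * z)
        have h2 : φ (star (e j c * z) * (e j c * z)) = t j (star c * c) * C := by
          rw [← hsq, ← mul_assoc, hexp _ z hz, hCz]
        have h3 : 0 ≤ t j (star c * c) := by
          have := hφ (e j c)
          rwa [← map_star, ← map_mul, h.tr] at this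
        rw [h2] at h1
        obtain ⟨r, hr⟩ : ∃ r : ℝ, t j (star c * c) = r :=
          ⟨(t j (star c * c)).re, Complex.ext rfl (by
            rw [Complex.ofReal_im]; exact (Complex.nonneg_iff.1 h3).2.symm)⟩
        rw [hr] at h1 h3 ⊢
        rw [Complex.zero_le_real] at h3
        calc (((C + 1)⁻¹ : ℝ) : ℂ) * ψ (star (e j c * z) * (e j c * z))
            ≤ (((C + 1)⁻¹ : ℝ) : ℂ) * ((r : ℂ) * (C : ℂ)) :=
              mul_le_mul_of_nonneg_left h1 (by rw [Complex.zero_le_real]; positivity)
          _ = (((C + 1)⁻¹ * (r * C) : ℝ) : ℂ) := by push_cast; ring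
          _ ≤ (r : ℂ) := by
              rw [Complex.real_le_real, inv_mul_le_iff₀ (by positivity)]
              nlinarith)
      have h1 := hκ b
      rw [hb, mul_zero, hGa] at h1
      rcases mul_eq_zero.1 h1 with h2 | h2
      · exfalso
        have : (C + 1)⁻¹ = 0 := by exact_mod_cast h2
        have h3 : C + 1 ≠ 0 := by positivity
        exact h3 (inv_eq_zero.1 this)
      · rwa [← mul_assoc] at h2
    -- polarization
    have hpol : ∀ β : ℂ, β * ψ (e j b * w) + conj β * ψ (star w * e j b) +
        conj β * β * ψ (star w * e j b * w) + ψ (e j b) = 0 := by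
      intro β
      have h1 := hG (1 + β • w) ⟨1, β, by rw [one_smul]⟩
      have e1 : star (1 + β • w) * e j b * (1 + β • w) =
          e j b + β • (e j b * w) + conj β • (star w * e j b) +
          (conj β * β) • (star w * e j b * w) := by
        rw [star_add, star_smul, star_one]
        simp only [add_mul, mul_add, smul_mul_assoc, mul_smul_comm, one_mul, mul_one, smul_smul,
          smul_add, Complex.star_def]
        module
      rw [e1, map_add, map_add, map_add, map_smul, map_smul, map_smul, smul_eq_mul, smul_eq_mul,
        smul_eq_mul] at h1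
      linear_combination h1
    have p0 := hpol 0
    have p1 := hpol 1
    have p2 := hpol (-1)
    have p3 := hpol Complex.I
    rw [map_zero] at p0
    rw [map_one] at p1
    rw [map_neg, map_one] at p2
    rw [Complex.conj_I] at p3
    have hI : Complex.I * Complex.I = -1 := Complex.I_mul_I
    have q0 : ψ (e j b) = 0 := by linear_combination p0
    have q1 : ψ (star w * e j b * w) = 0 := by
      linear_combination (1 / 2 : ℂ) * p1 + (1 / 2 : ℂ) * p2 - q0
    have q2 : ψ (e j b * w) + ψ (star w * e j b) = 0 := by
      linear_combination p1 - q0 - q1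
    have q3 : Complex.I * (ψ (e j b * w) - ψ (star w * e j b)) = 0 := by
      linear_combination p3 - q0 + Complex.I * Complex.I * q1
    have q4 : ψ (e j b * w) - ψ (star w * e j b) = 0 := by
      rcases mul_eq_zero.1 q3 with h4 | h4
      · exact absurd h4 Complex.I_ne_zero
      · exact h4
    linear_combination (1 / 2 : ℂ) * q2 + (1 / 2 : ℂ) * q4
  refine ⟨ψ 1, fun x => ?_⟩
  have := ext_words h hψ.cont (g := ψ 1 • φ) (continuous_const.mul hφ.cont) (by
    intro l hl
    cases l with
    | nil =>
      rw [vl_nil]
      change ψ 1 = ψ 1 * φ 1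
      rw [h.one, mul_one]
    | cons p l =>
      have h1 : φ (vl (p :: l)) = 0 := hF _ (by simp) hl
      change ψ (vl (p :: l)) = ψ 1 * φ (vl (p :: l))
      rw [h1, mul_zero, vl_cons]
      obtain ⟨b, hb⟩ := hl.mem p (by simp)
      have h2 : t p.1 b = 0 := by
        rw [← h.tr]
        change φ (e p.1 b) = 0
        have : e p.1 b = p.2 := hb
        rw [this]
        exact hl.cen p (by simp)
      have h3 := key p.1 b l h2 hl.tail (by
        intro q hq
        cases l with
        | nil => simp at hq
        | cons q' l' =>
          simp only [List.head?_cons, Option.mem_def, Option.some.injEq] at hq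
          subst hq
          exact ((List.isChain_cons_cons.1 hl.alt).1).symm)
      have : e p.1 b = p.2 := hb
      rwa [this] at h3) x
  exact this

/-- centred centralizing elements commute in expectation with the words: one side -/
theorem cen_left (h : IsRFP D (fun j => (t j : D j → ℂ)) φ e) {j : J} {u : D j} (hu0 : t j u = 0)
    {p q : J × A} {l : List (J × A)} (hl : Alt φ (SS e) (p :: q :: l)) :
    φ (e j u * vl (p :: q :: l)) = 0 := by
  have hF := free_of h
  have hx0 : φ (e j u) = 0 := by rw [h.tr]; exact hu0
  by_cases hj : p.1 = j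
  · obtain ⟨b, hb⟩ := hl.mem p (by simp)
    have hb' : e p.1 b = p.2 := hb
    subst hj
    rw [vl_cons, ← hb', ← mul_assoc, ← map_mul]
    have hd : e p.1 (u * b) = e p.1 (u * b - t p.1 (u * b) • 1) + t p.1 (u * b) • 1 := by
      rw [map_sub, map_smul, map_one, sub_add_cancel]
    have h1 : t p.1 1 = 1 := by
      have := h.tr p.1 1
      rw [map_one, h.one] at this
      exact this.symm
    rw [hd, add_mul, smul_mul_assoc, one_mul, map_add, map_smul]
    have h2 : φ (vl (q :: l)) = 0 := hF _ (by simp) hl.tail
    have h3 : Alt φ (SS e) ((p.1, e p.1 (u * b - t p.1 (u * b) • 1)) :: q :: l) := by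
      refine alt_cons ⟨_, rfl⟩ ?_ hl.tail ?_
      · rw [h.tr]
        rw [map_sub, map_smul, h1, smul_eq_mul, mul_one, sub_self]
      · intro r hr
        simp only [List.head?_cons, Option.mem_def, Option.some.injEq] at hr
        subst hr
        exact ((List.isChain_cons_cons.1 hl.alt).1).symm
    have h4 := hF _ (by simp) h3
    rw [vl_cons] at h4
    change φ (e p.1 (u * b - t p.1 (u * b) • 1) * vl (q :: l)) = 0 at h4
    rw [h4, h2, smul_zero, add_zero]
  · have h3 : Alt φ (SS e) ((j, e j u) :: p :: q :: l) := by
      refine alt_cons ⟨_, rfl⟩ hx0 hl ?_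
      intro r hr
      simp only [List.head?_cons, Option.mem_def, Option.some.injEq] at hr
      subst hr
      exact hj
    have h4 := hF _ (by simp) h3
    rwa [vl_cons] at h4

/-- **Centralizers pass to free products.** -/
theorem cen_rfp (h : IsRFP D (fun j => (t j : D j → ℂ)) φ e) {j : J} {u : D j} (hu0 : t j u = 0)
    (hu : Cen (t j) u) : Cen φ (e j u) := by
  have hφ : PF φ := h.nonneg
  have hF := free_of h
  have hx0 : φ (e j u) = 0 := by rw [h.tr]; exact hu0
  have htj : PF (t j) := by
    intro x
    have := hφ (e j x)
    rwa [← map_star, ← map_mul, h.tr] at this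
  intro a
  refine ext_words h (f := φ.comp (LinearMap.mulLeft ℂ (e j u)))
    (g := φ.comp (LinearMap.mulRight ℂ (e j u))) (hφ.cont.comp (continuous_const.mul continuous_id))
    (hφ.cont.comp (continuous_id.mul continuous_const)) ?_ a
  intro l hl
  change φ (e j u * vl l) = φ (vl l * e j u)
  cases l with
  | nil => rw [vl_nil, mul_one, one_mul]
  | cons p l =>
    cases l with
    | nil =>
      rw [vl_cons, vl_nil, mul_one]
      obtain ⟨b, hb⟩ := hl.mem p (by simp)
      have hb' : e p.1 b = p.2 := hb
      by_cases hj : p.1 = j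
      · subst hj
        rw [← hb', ← map_mul, ← map_mul, h.tr, h.tr]
        exact hu b
      · have e1 : φ (e j u * p.2) = 0 := by
          have h3 : Alt φ (SS e) ((j, e j u) :: [p]) := by
            refine alt_cons ⟨_, rfl⟩ hx0 hl ?_
            intro r hr
            simp only [List.head?_cons, Option.mem_def, Option.some.injEq] at hr
            subst hr
            exact hj
          have h4 := hF _ (by simp) h3
          rwa [vl_cons, vl_cons, vl_nil, mul_one] at h4
        have e2 : φ (p.2 * e j u) = 0 := by
          have h3 : Alt φ (SS e) (p :: [(j, e j u)]) := by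
            have : Alt φ (SS e) ((p.1, p.2) :: [(j, e j u)]) := by
              refine alt_cons (hl.mem p (by simp)) (hl.cen p (by simp))
                (alt_cons ⟨_, rfl⟩ hx0 alt_nil (by simp)) ?_
              intro r hr
              simp only [List.head?_cons, Option.mem_def, Option.some.injEq] at hr
              subst hr
              exact fun h5 => hj h5.symm
            exact this
          have h4 := hF _ (by simp) h3
          rwa [vl_cons, vl_cons, vl_nil, mul_one] at h4
        rw [e1, e2]
    | cons q l =>
      rw [cen_left h hu0 hl]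
      have h1 := hl.adw hφ.star
      have hlen : ∃ p' q' l', adw (p :: q :: l) = p' :: q' :: l' := by
        have h2 : (adw (p :: q :: l)).length = l.length + 2 := by
          simp [adw]
        match hm : adw (p :: q :: l) with
        | [] => rw [hm] at h2; simp at h2
        | [_] => rw [hm] at h2; simp at h2
        | p' :: q' :: l' => exact ⟨p', q', l', rfl⟩
      obtain ⟨p', q', l', hpq⟩ := hlen
      have h3 : t j (star u) = 0 := by rw [htj.star, hu0, map_zero]
      rw [hpq] at h1
      have h4 := cen_left h h3 h1
      rw [← hpq, vl_adw, map_star, ← star_mul, hφ.star] at h4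
      have := congrArg conj h4
      rw [Complex.conj_conj, map_zero] at this
      exact this.symm

end Q89.RF
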