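import Pool.Agent.Q89.RF.Nuc
import Pool.Agent.Q89.RF.Pure

/-! Free products with centralizing unitaries do not have the weak form of nuclearity. -/

set_option autoImplicit false

open scoped ComplexConjugate ComplexOrder InnerProductSpace
open Finset

noncomputable section

namespace Q89.RF

open Pool.Agent.H923R2.FZ (IsRFP)
open Pool.Agent.TH254.FP (Rep exists_rep FQ QQ TT)

theorem PF.re_le {A : Type} [CStarAlgebra A] {φ : A →ₗ[ℂ] ℂ} (h : PF φ) (h1 : φ 1 = 1) (x : A) :
    (φ (Star.star x * x)).re ≤ ‖x‖ ^ 2 := by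
  let _ : PartialOrder A := CStarAlgebra.spectralOrder A
  have : StarOrderedRing A := CStarAlgebra.spectralOrderedRing A
  have a1 : Star.star x * x ≤ algebraMap ℝ A (‖x‖ ^ 2) := by
    have := (IsSelfAdjoint.star_mul_self x).le_algebraMap_norm_self
    rwa [CStarRing.norm_star_mul_self, ← sq] at this
  obtain ⟨d, hd⟩ := CStarAlgebra.nonneg_iff_eq_star_mul_self.1 (sub_nonneg.2 a1)
  have a2 := h d
  rw [← hd, map_sub, Algebra.algebraMap_eq_smul_one, ← Complex.coe_smul, map_smul, h1,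
    smul_eq_mul, mul_one] at a2
  have := (Complex.nonneg_iff.1 a2).1
  rw [Complex.sub_re, Complex.ofReal_re] at this
  linarith

theorem PF.bound {A : Type} [CStarAlgebra A] {φ : A →ₗ[ℂ] ℂ} (h : PF φ) (h1 : φ 1 = 1) (x : A) :
    ‖φ x‖ ≤ ‖x‖ := by
  have h2 := h.cs 1 x
  rw [star_one, one_mul, one_mul, h1, Complex.one_re, one_mul] at h2
  exact (pow_le_pow_iff_left₀ (norm_nonneg _) (norm_nonneg _) two_ne_zero).1
    (h2.trans (h.re_le h1 x))

theorem NN.nonneg {A : Type} [CStarAlgebra A] {φ : A →ₗ[ℂ] ℂ} (h : PF φ) {x : A} (hx : NN x) :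
    0 ≤ φ x := by
  obtain ⟨c, rfl⟩ := hx
  exact h c

section key

variable {B A : Type} [CStarAlgebra B] [CStarAlgebra A] {θ : B →ₗ[ℂ] A} {φ : A →ₗ[ℂ] ℂ}

theorem pf_comp (h : CP2 θ) (hφ : PF φ) : PF (φ.comp θ) := fun x => (h.pos x).nonneg hφ

/-- approximate multiplicativity -/
theorem cs_key (h : CP2 θ) (hφ : PF φ) (hφ1 : φ 1 = 1) {U : B} (hU : U * star U = 1) {u : A}
    (hu1 : star u * u = 1) (hu : u * star u = 1) {ε : ℝ} (hε : ε ≤ 1) (e1 : ‖θ 1 - 1‖ ≤ ε)
    (eU : ‖θ U - u‖ ≤ ε) (T : B) (hT : ∃ R, 1 - star T * T = star R * R) :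
    ‖φ (θ (U * T)) - φ (u * θ T)‖ ^ 2 ≤ 8 * ε := by
  have hun : ‖star u‖ ≤ 1 := by
    have : ‖star u‖ * ‖star u‖ ≤ 1 := by
      have h2 := CStarRing.norm_star_mul_self (x := u)
      rw [hu1] at h2
      rw [norm_star, ← h2]
      rcases subsingleton_or_nontrivial A with hA | hA
      · rw [Subsingleton.elim (1 : A) 0, norm_zero]; exact zero_le_one
      · rw [CStarRing.norm_one]
    nlinarith [norm_nonneg (star u)]
  have hun' : ‖u‖ ≤ 1 := by rwa [norm_star] at hun
  -- the constant term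
  set D : A := θ 1 - θ U * star u - u * θ (star U) + u * θ 1 * star u with hD
  have hDn : ‖D‖ ≤ 4 * ε := by
    have e : D = (θ 1 - 1) - (θ U - u) * star u - u * star (θ U - u) + u * (θ 1 - 1) * star u := by
      rw [hD, h.map_st, star_sub, sub_mul, mul_sub, mul_sub, mul_one, sub_mul, hu]
      abel
    rw [e]
    have b1 : ‖(θ U - u) * star u‖ ≤ ε := by
      refine (norm_mul_le _ _).trans ?_
      nlinarith [norm_nonneg (θ U - u), norm_nonneg (star u)]
    have b2 : ‖u * star (θ U - u)‖ ≤ ε := by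
      refine (norm_mul_le _ _).trans ?_
      rw [norm_star]
      nlinarith [norm_nonneg (θ U - u), norm_nonneg u]
    have b3 : ‖u * (θ 1 - 1) * star u‖ ≤ ε := by
      refine (norm_mul_le _ _).trans ?_
      have : ‖u * (θ 1 - 1)‖ ≤ ε := by
        refine (norm_mul_le _ _).trans ?_
        nlinarith [norm_nonneg (θ 1 - 1), norm_nonneg u]
      nlinarith [norm_nonneg (u * (θ 1 - 1)), norm_nonneg (star u)]
    calc _ ≤ ‖(θ 1 - 1) - (θ U - u) * star u - u * star (θ U - u)‖ + ‖u * (θ 1 - 1) * star u‖ :=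
          norm_add_le _ _
      _ ≤ (‖(θ 1 - 1) - (θ U - u) * star u‖ + ‖u * star (θ U - u)‖) + ‖u * (θ 1 - 1) * star u‖ := by
          gcongr; exact norm_sub_le _ _
      _ ≤ ((‖θ 1 - 1‖ + ‖(θ U - u) * star u‖) + ‖u * star (θ U - u)‖) +
            ‖u * (θ 1 - 1) * star u‖ := by gcongr; exact norm_sub_le _ _
      _ ≤ 4 * ε := by linarith
  set z : ℂ := φ (θ (U * T)) - φ (u * θ T) with hz
  -- the quadratic form
  have hq : ∀ l : ℂ, 0 ≤ φ D + (l * z + conj (l * z)) + (conj l * l) * φ (θ (star T * T)) := by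
    intro l
    have h2 := (h (star U + l • T) 1 1 (-star u)).nonneg hφ
    convert h2 using 1
    rw [star_one, star_one, one_mul, one_mul, mul_one, mul_one, mul_one, mul_one, star_neg,
      star_star, star_add, star_smul, star_star]
    have e2 : (U + star l • star T) * (star U + l • T) =
        1 + l • (U * T) + conj l • star (U * T) + (conj l * l) • (star T * T) := by
      rw [add_mul, mul_add, mul_add, hU, smul_mul_smul_comm, mul_smul_comm, smul_mul_assoc,
        star_mul, Complex.star_def]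
      abel
    rw [e2, hD, hz]
    simp only [map_add, map_sub, map_smul, map_mul, mul_add, add_mul, neg_mul, mul_neg, smul_eq_mul,
      mul_smul_comm, smul_mul_assoc, map_neg, h.map_st, Complex.star_def, neg_neg]
    rw [hφ.star (θ (U * T))]
    have e3 : φ (star (θ T) * star u) = conj (φ (u * θ T)) := by
      rw [← hφ.star, star_mul]
    rw [e3]
    simp only [one_mul, h.map_st]
    ring
  have hDr : (φ D).re ≤ 4 * ε := (Complex.re_le_norm _).trans ((hφ.bound hφ1 D).trans hDn)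
  have hTr : (φ (θ (star T * T))).re ≤ 2 := by
    obtain ⟨R, hR⟩ := hT
    have h2 := (h.pos R).nonneg hφ
    rw [← hR, map_sub, map_sub] at h2
    have h3 := (Complex.nonneg_iff.1 h2).1
    rw [Complex.sub_re] at h3
    have h4 : (φ (θ 1)).re ≤ 1 + ε := by
      have : φ (θ 1) = 1 + φ (θ 1 - 1) := by rw [map_sub, hφ1]; ring
      rw [this, Complex.add_re, Complex.one_re]
      linarith [(Complex.re_le_norm (φ (θ 1 - 1))).trans (hφ.bound hφ1 _)]
    linarith
  have h3 := (Complex.nonneg_iff.1 (hq (-(1 / 2 : ℝ) * conj z))).1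
  have e4 : (φ D + (-(1 / 2 : ℝ) * conj z * z + conj (-(1 / 2 : ℝ) * conj z * z)) +
      (conj (-(1 / 2 : ℝ) * conj z) * (-(1 / 2 : ℝ) * conj z)) * φ (θ (star T * T))).re =
      (φ D).re - ‖z‖ ^ 2 + 1 / 4 * ‖z‖ ^ 2 * (φ (θ (star T * T))).re := by
    have e5 : (-(1 / 2 : ℝ) * conj z * z : ℂ) = ((-(1 / 2) * ‖z‖ ^ 2 : ℝ) : ℂ) := by
      rw [mul_assoc, Complex.conj_mul']
      push_cast
      ring
    have e6 : (conj (-(1 / 2 : ℝ) * conj z : ℂ) * (-(1 / 2 : ℝ) * conj z)) =
        ((1 / 4 * ‖z‖ ^ 2 : ℝ) : ℂ) := by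
      rw [map_mul, map_neg, Complex.conj_ofReal, Complex.conj_conj]
      have : (-((1 / 2 : ℝ) : ℂ) * z * (-(1 / 2 : ℝ) * conj z)) = (1 / 4 : ℂ) * (z * conj z) := by
        push_cast; ring
      rw [this, Complex.mul_conj']
      push_cast
      ring
    rw [e5, e6, Complex.conj_ofReal, Complex.add_re, Complex.add_re, Complex.add_re,
      Complex.ofReal_re, Complex.re_ofReal_mul]
    ring
  rw [e4] at h3
  have h5 : 1 / 4 * ‖z‖ ^ 2 * (φ (θ (star T * T))).re ≤ 1 / 4 * ‖z‖ ^ 2 * 2 := by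
    gcongr
  linarith

/-- approximate invariance under a centralizing unitary -/
theorem inv_key (h : CP2 θ) (hφ : PF φ) (hφ1 : φ 1 = 1) {U : B} (hU1 : star U * U = 1)
    (hU : U * star U = 1) {u : A}
    (hu1 : star u * u = 1) (hu : u * star u = 1) (hc : Cen φ u) {ε δ : ℝ} (hε : ε ≤ 1)
    (hδ : 0 ≤ δ) (hεδ : 8 * ε ≤ δ ^ 2)
    (e1 : ‖θ 1 - 1‖ ≤ ε)
    (eU : ‖θ U - u‖ ≤ ε) (P : B) (hP1 : star P = P) (hP2 : P * P = P) :
    (φ (θ P)).re ≤ (φ (θ (U * P * star U))).re + 2 * δ := by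
  have c1 := cs_key h hφ hφ1 hU hu1 hu hε e1 eU (P * star U) ⟨(1 - P) * star U, by
    rw [star_mul, star_star, star_mul, star_star, star_sub, star_one, hP1]
    have : U * (1 - P) * ((1 - P) * star U) = U * ((1 - P) * (1 - P)) * star U := by
      simp only [mul_assoc]
    rw [this]
    have : U * P * (P * star U) = U * (P * P) * star U := by simp only [mul_assoc]
    rw [this, hP2]
    have : (1 - P) * (1 - P) = 1 - P := by
      simp only [sub_mul, mul_sub, one_mul, mul_one, hP2]; abel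
    rw [this, mul_sub, sub_mul, mul_one, hU]⟩
  have eU' : ‖θ (star U) - star u‖ ≤ ε := by
    rw [h.map_st, ← star_sub, norm_star]; exact eU
  have c2 := cs_key h hφ hφ1 (U := star U) (by rw [star_star]; exact hU1) (u := star u)
    (by rw [star_star]; exact hu) (by rw [star_star]; exact hu1) hε e1 eU' (U * P) ⟨1 - P, by
    rw [star_mul, star_sub, star_one, hP1]
    have : P * star U * (U * P) = P * (star U * U) * P := by simp only [mul_assoc]
    rw [this, hU1, mul_one, hP2]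
    simp only [sub_mul, mul_sub, one_mul, mul_one, hP2]
    abel⟩
  have n1 : ‖φ (θ (U * (P * star U))) - φ (u * θ (P * star U))‖ ≤ δ :=
    (pow_le_pow_iff_left₀ (norm_nonneg _) hδ two_ne_zero).1 (c1.trans hεδ)
  have n2 : ‖φ (θ (star U * (U * P))) - φ (star u * θ (U * P))‖ ≤ δ :=
    (pow_le_pow_iff_left₀ (norm_nonneg _) hδ two_ne_zero).1 (c2.trans hεδ)
  have e3 : φ (star u * θ (U * P)) = conj (φ (u * θ (P * star U))) := by
    rw [← hφ.star, star_mul, ← h.map_st, star_mul, star_star, hP1]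
    exact (hc.star hφ) _
  have e4 : star U * (U * P) = P := by rw [← mul_assoc, hU1, one_mul]
  rw [e3, e4] at n2
  have r1 := (Complex.abs_re_le_norm _).trans n1
  have r2 := (Complex.abs_re_le_norm _).trans n2
  rw [Complex.sub_re, abs_le] at r1 r2
  rw [Complex.conj_re] at r2
  rw [mul_assoc]
  linarith [r1.1, r1.2, r2.1, r2.2]

end key

/-- the halving estimate -/
theorem half_key {B A : Type} [CStarAlgebra B] [CStarAlgebra A] {θ : B →ₗ[ℂ] A} {φ : A →ₗ[ℂ] ℂ}
    (h : CP2 θ) (hφ : PF φ) (hφ1 : φ 1 = 1) {U : B}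
    (hU1 : star U * U = 1) (hU : U * star U = 1) {u : A}
    (hu1 : star u * u = 1) (hu : u * star u = 1) (hc : Cen φ u) {ε δ : ℝ} (hε : ε ≤ 1)
    (hδ : 0 ≤ δ) (hεδ : 8 * ε ≤ δ ^ 2) (e1 : ‖θ 1 - 1‖ ≤ ε)
    (eU : ‖θ U - u‖ ≤ ε) (Q : B) (hQ1 : star Q = Q) (hQ2 : Q * Q = Q)
    (hQU : (1 - Q) * U * (1 - Q) = 0) :
    (φ (θ 1)).re ≤ 2 * (φ (θ Q)).re + 2 * δ := by
  set P : B := 1 - Q with hP
  have hP1 : star P = P := by rw [hP, star_sub, star_one, hQ1]
  have hP2 : P * P = P := by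
    rw [hP]
    simp only [sub_mul, mul_sub, one_mul, mul_one, hQ2]; abel
  have h2 := inv_key h hφ hφ1 hU1 hU hu1 hu hc hε hδ hεδ e1 eU P hP1 hP2
  -- the remaining projection
  have hPUP : P * star U * P = 0 := by
    have := congrArg star hQU
    rw [star_mul, star_mul, star_zero, hP1] at this
    rw [← mul_assoc] at this
    exact this
  have hQ3 : (U * P * star U) * (U * P * star U) = U * P * star U := by
    have : (U * P * star U) * (U * P * star U) = U * P * (star U * U) * P * star U := by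
      simp only [mul_assoc]
    rw [this, hU1, mul_one, mul_assoc U P P, hP2]
  have hR : 1 - P - U * P * star U = star (1 - P - U * P * star U) * (1 - P - U * P * star U) := by
    have s1 : star (1 - P - U * P * star U) = 1 - P - U * P * star U := by
      rw [star_sub, star_sub, star_one, hP1, star_mul, star_mul, star_star, hP1, mul_assoc]
    rw [s1]
    have m1 : P * (U * P * star U) = 0 := by
      have : P * (U * P * star U) = (P * U * P) * star U := by simp only [mul_assoc]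
      rw [this, hQU, zero_mul]
    have m2 : (U * P * star U) * P = 0 := by
      have : (U * P * star U) * P = U * (P * star U * P) := by simp only [mul_assoc]
      rw [this, hPUP, mul_zero]
    simp only [sub_mul, mul_sub, one_mul, mul_one, hP2, m1, m2, hQ3]
    abel
  have h3 := (h.pos (1 - P - U * P * star U)).nonneg hφ
  rw [← hR, map_sub, map_sub, map_sub, map_sub] at h3
  have h4 := (Complex.nonneg_iff.1 h3).1
  rw [Complex.sub_re, Complex.sub_re] at h4
  have h5 : (φ (θ P)).re = (φ (θ 1)).re - (φ (θ Q)).re := by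
    rw [hP, map_sub, map_sub, Complex.sub_re]
  linarith

/-- **The paradox.** -/
theorem not_nucLike {J : Type} {D : J → Type} [∀ j, CStarAlgebra (D j)] {t : ∀ j, D j →ₗ[ℂ] ℂ}
    {A : Type} [CStarAlgebra A] {φ : A →ₗ[ℂ] ℂ} {e : ∀ j, D j →⋆ₐ[ℂ] A}
    (h : IsRFP D (fun j => (t j : D j → ℂ)) φ e) (k : Fin 3 → J) (hk : Function.Injective k)
    (u : ∀ i : Fin 3, D (k i)) (hu1 : ∀ i, star (u i) * u i = 1) (hu2 : ∀ i, u i * star (u i) = 1)
    (hc : ∀ i, Cen (t (k i)) (u i)) (h0 : ∀ i, t (k i) (u i) = 0) : ¬ NucLike A := by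
  classical
  intro hN
  have hφ : PF φ := h.nonneg
  obtain ⟨H, _, _, _, π, ξ, hr⟩ := exists_rep φ h.one (pos_of hφ) h.gns
  have hq := hr.fq (free_of h) (gen_of h)
  have : Nontrivial H := ⟨ξ, 0, by
    intro h1
    have := hr.unit
    rw [h1, norm_zero] at this
    exact zero_ne_one this⟩
  set w : Fin 3 → A := fun i => e (k i) (u i) with hw
  obtain ⟨θ, hθ, hF⟩ := hN H π ({1, w 0, w 1, w 2} : Finset A) (1 / 80000) (by norm_num)
  have e1 : ‖θ 1 - 1‖ ≤ 1 / 80000 := by
    have := hF 1 (by simp)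
    rw [map_one] at this
    exact this.le
  have eU : ∀ i, ‖θ (π (w i)) - w i‖ ≤ 1 / 80000 := by
    intro i
    refine (hF (w i) ?_).le
    fin_cases i <;> simp
  have hhalf : ∀ i, (φ (θ 1)).re ≤ 2 * (φ (θ (QQ φ (SS e) π ξ (k i)))).re + 2 * (1 / 100) := by
    intro i
    refine half_key hθ hφ h.one (U := π (w i)) ?_ ?_ (u := w i) ?_ ?_ ?_ (ε := 1 / 80000)
      (by norm_num) (by norm_num) (by norm_num) e1 (eU i) _ (hq.sa _) (hq.idem _) ?_
    · rw [← map_star, ← map_mul, hw]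
      simp only
      rw [← map_star, ← map_mul, hu1, map_one, map_one]
    · rw [← map_star, ← map_mul, hw]
      simp only
      rw [← map_star, ← map_mul, hu2, map_one, map_one]
    · rw [hw]; simp only
      rw [← map_star, ← map_mul, hu1, map_one]
    · rw [hw]; simp only
      rw [← map_star, ← map_mul, hu2, map_one]
    · exact cen_rfp h (h0 i) (hc i)
    · refine hq.cen (k i) _ ⟨w i, ⟨u i, rfl⟩, ?_, rfl⟩
      rw [hw]
      simp only
      rw [h.tr]
      exact h0 i
  -- orthogonality of the projections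
  set Q : Fin 3 → (H →L[ℂ] H) := fun i => QQ φ (SS e) π ξ (k i) with hQ
  have o : ∀ i j, i ≠ j → Q i * Q j = 0 := fun i j hij => hq.orth _ _ fun h2 => hij (hk h2)
  have hsa : ∀ i, star (Q i) = Q i := fun i => hq.sa _
  have hid : ∀ i, Q i * Q i = Q i := fun i => hq.idem _
  have hR : 1 - Q 0 - Q 1 - Q 2 = star (1 - Q 0 - Q 1 - Q 2) * (1 - Q 0 - Q 1 - Q 2) := by
    have s1 : star (1 - Q 0 - Q 1 - Q 2) = 1 - Q 0 - Q 1 - Q 2 := by
      rw [star_sub, star_sub, star_sub, star_one, hsa, hsa, hsa]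
    rw [s1]
    simp only [sub_mul, mul_sub, one_mul, mul_one, hid, o 0 1 (by decide), o 1 0 (by decide),
      o 0 2 (by decide), o 2 0 (by decide), o 1 2 (by decide), o 2 1 (by decide)]
    abel
  have h3 := (hθ.pos (1 - Q 0 - Q 1 - Q 2)).nonneg hφ
  rw [← hR] at h3
  simp only [map_sub] at h3
  have h4 := (Complex.nonneg_iff.1 h3).1
  simp only [Complex.sub_re] at h4
  have h5 : 1 - 1 / 80000 ≤ (φ (θ 1)).re := by
    have : φ (θ 1) = 1 + φ (θ 1 - 1) := by rw [map_sub, h.one]; ring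
    rw [this, Complex.add_re, Complex.one_re]
    have := (Complex.abs_re_le_norm (φ (θ 1 - 1))).trans ((hφ.bound h.one _).trans e1)
    rw [abs_le] at this
    linarith [this.1]
  have a0 := hhalf 0
  have a1 := hhalf 1
  have a2 := hhalf 2
  change _ ≤ 2 * (φ (θ (Q 0))).re + _ at a0
  change _ ≤ 2 * (φ (θ (Q 1))).re + _ at a1
  change _ ≤ 2 * (φ (θ (Q 2))).re + _ at a2
  linarith

end Q89.RF
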