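import Pool.Agent.Q89.RF.Cuntz
import Pool.Agent.Q89.RF.Par

/-! Free products of states on `O_∞` which vanish on the range projections. -/

set_option autoImplicit false

open scoped ComplexConjugate ComplexOrder InnerProductSpace
open Finset

noncomputable section

namespace Q89.RF

open Pool.Agent.H923R2.FZ (IsRFP)
open Pool.Agent.TH254.FP (Rep exists_rep FQ QQ TT)

/-- orthogonality of the ranges of free letters -/
theorem orth_free {J : Type} {D : J → Type} [∀ j, CStarAlgebra (D j)] {t : ∀ j, D j →ₗ[ℂ] ℂ}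
    {A : Type} [CStarAlgebra A] {φ : A →ₗ[ℂ] ℂ} {e : ∀ j, D j →⋆ₐ[ℂ] A}
    (h : IsRFP D (fun j => (t j : D j → ℂ)) φ e) {j k : J} (hjk : j ≠ k) (x : D j) (y : D k)
    (hx : t j (x * star x) = 0) (hy : t k (y * star y) = 0) : star (e j x) * e k y = 0 := by
  classical
  have hφ : PF φ := h.nonneg
  obtain ⟨H, _, _, _, π, ξ, hr⟩ := exists_rep φ h.one (pos_of hφ) h.gns
  have hq := hr.fq (free_of h) (gen_of h)
  -- the key fact
  have key : ∀ (j : J) (x : D j), t j (x * star x) = 0 →
      (1 - QQ φ (SS e) π ξ j) * π (e j x) = 0 := by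
    intro j x hx
    have h0 : φ (e j x * star (e j x)) = 0 := by
      rw [← map_star, ← map_mul, h.tr]; exact hx
    have h1 : φ (star (e j x)) = 0 := by
      have := hφ.cs 1 (star (e j x))
      rw [star_star, h0, Complex.zero_re, mul_zero, star_one, one_mul] at this
      have h2 : ‖φ (star (e j x))‖ = 0 := by
        have := le_antisymm this (sq_nonneg _)
        exact pow_eq_zero_iff (two_ne_zero) |>.1 this
      exact norm_eq_zero.1 h2
    have hmem : π (star (e j x)) ∈ TT φ (SS e) π j :=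
      ⟨star (e j x), star_mem ⟨x, rfl⟩, h1, rfl⟩
    obtain ⟨κ, hκ⟩ := hq.gram j _ hmem _ hmem
    have hκ0 : κ = 0 := by
      have e1 := congrArg (fun T : H →L[ℂ] H => ⟪ξ, T ξ⟫_ℂ) hκ
      have v : (1 - QQ φ (SS e) π ξ j) ξ = ξ := by
        rw [ContinuousLinearMap.sub_apply, ContinuousLinearMap.one_apply, hq.vac, sub_zero]
      have e2 : ((1 - QQ φ (SS e) π ξ j) * (star (π (star (e j x))) * π (star (e j x))) *
          (1 - QQ φ (SS e) π ξ j)) ξ = (1 - QQ φ (SS e) π ξ j)
            ((star (π (star (e j x))) * π (star (e j x))) ξ) := by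
        change (1 - QQ φ (SS e) π ξ j) ((star (π (star (e j x))) * π (star (e j x)))
          ((1 - QQ φ (SS e) π ξ j) ξ)) = _
        rw [v]
      have e3 : ∀ z : H, ⟪ξ, (1 - QQ φ (SS e) π ξ j) z⟫_ℂ = ⟪ξ, z⟫_ℂ := by
        intro z
        have s1 : star (1 - QQ φ (SS e) π ξ j) = 1 - QQ φ (SS e) π ξ j := by
          rw [star_sub, star_one, hq.sa]
        have := Pool.Agent.TH254.FP.inner_star_mul (1 - QQ φ (SS e) π ξ j) 1 ξ z
        rw [s1, mul_one, v] at this
        exact this.symm
      rw [e2, e3, ← map_star, ← map_mul, star_star, ← hr.vec, h0, ContinuousLinearMap.smul_apply,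
        v, inner_smul_right, inner_self_eq_norm_sq_to_K, hr.unit] at e1
      simpa using e1.symm
    rw [hκ0, zero_smul] at hκ
    have h3 : star (π (star (e j x)) * (1 - QQ φ (SS e) π ξ j)) *
        (π (star (e j x)) * (1 - QQ φ (SS e) π ξ j)) = 0 := by
      rw [star_mul, star_sub, star_one, hq.sa, ← hκ]
      simp only [mul_assoc]
    have h4 : π (star (e j x)) * (1 - QQ φ (SS e) π ξ j) = 0 :=
      CStarRing.star_mul_self_eq_zero_iff _ |>.1 h3
    have h5 := congrArg star h4
    rw [star_mul, star_zero, star_sub, star_one, hq.sa, ← map_star, star_star] at h5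
    exact h5
  have k1 : π (e j x) = QQ φ (SS e) π ξ j * π (e j x) := by
    have := key j x hx
    rw [sub_mul, one_mul, sub_eq_zero] at this
    exact this
  have k2 : π (e k y) = QQ φ (SS e) π ξ k * π (e k y) := by
    have := key k y hy
    rw [sub_mul, one_mul, sub_eq_zero] at this
    exact this
  apply hr.inj
  rw [map_mul, map_star, map_zero, k1, k2, star_mul, hq.sa]
  have : star (π (e j x)) * QQ φ (SS e) π ξ j * (QQ φ (SS e) π ξ k * π (e k y)) =
      star (π (e j x)) * (QQ φ (SS e) π ξ j * QQ φ (SS e) π ξ k) * π (e k y) := by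
    simp only [mul_assoc]
  rw [this, hq.orth j k hjk, mul_zero, zero_mul]

/-- **The free product is generated by isometries with orthogonal ranges.** -/
theorem cuntz_rfp {D : ℕ → Type} [∀ j, CStarAlgebra (D j)] {t : ∀ j, D j →ₗ[ℂ] ℂ}
    {A : Type} [CStarAlgebra A] {φ : A →ₗ[ℂ] ℂ} {e : ∀ j, D j →⋆ₐ[ℂ] A}
    (h : IsRFP D (fun j => (t j : D j → ℂ)) φ e) (s : ∀ j, ℕ → D j) (hs : ∀ j, CuntzInf (s j))
    (h0 : ∀ j i, t j (s j i * star (s j i)) = 0) :
    CuntzInf (fun n : ℕ => e n.unpair.1 (s n.unpair.1 n.unpair.2)) where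
  iso n := by
    rw [← map_star, ← map_mul, (hs _).iso, map_one]
  orth m n hmn := by
    by_cases h1 : m.unpair.1 = n.unpair.1
    · have h2 : m.unpair.2 ≠ n.unpair.2 := by
        intro h3
        apply hmn
        have h4 : m.unpair = n.unpair := Prod.ext h1 h3
        have := congrArg (fun p : ℕ × ℕ => Nat.pair p.1 p.2) h4
        simpa using this
      have e1 : ∀ (j k : ℕ) (hjk : j = k) (a b : ℕ) (hab : a ≠ b),
          star (e j (s j a)) * e k (s k b) = 0 := by
        rintro j _ rfl a b hab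
        rw [← map_star, ← map_mul, (hs j).orth a b hab, map_zero]
      exact e1 _ _ h1 _ _ h2
    · exact orth_free h h1 _ _ (h0 _ _) (h0 _ _)
  gen := by
    rw [← top_le_iff, ← h.gen]
    set T := (StarAlgebra.adjoin ℂ (Set.range fun n : ℕ =>
      e n.unpair.1 (s n.unpair.1 n.unpair.2))).topologicalClosure with hT
    refine StarSubalgebra.topologicalClosure_minimal ?_ (StarSubalgebra.isClosed_topologicalClosure _)
    rw [StarAlgebra.adjoin_le_iff]
    intro y hy
    obtain ⟨j, x, rfl⟩ := Set.mem_iUnion.1 hy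
    -- the closed subalgebra of `D j`
    have hcont : Continuous (e j) := by
      refine AddMonoidHomClass.continuous_of_bound (e j) 1 fun x => ?_
      rw [one_mul]
      exact NonUnitalStarAlgHom.norm_apply_le (e j) x
    have hcl : IsClosed ((T.comap (e j) : StarSubalgebra ℂ (D j)) : Set (D j)) := by
      rw [StarSubalgebra.coe_comap]
      exact (StarSubalgebra.isClosed_topologicalClosure _).preimage hcont
    have hle : StarAlgebra.adjoin ℂ (Set.range (s j)) ≤ T.comap (e j) := by
      rw [StarAlgebra.adjoin_le_iff]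
      rintro _ ⟨i, rfl⟩
      change e j (s j i) ∈ T
      have e1 : ∀ p : ℕ × ℕ, p = (j, i) → e p.1 (s p.1 p.2) = e j (s j i) := by
        rintro _ rfl; rfl
      exact StarSubalgebra.le_topologicalClosure _
        (StarAlgebra.subset_adjoin ℂ _ ⟨Nat.pair j i, e1 _ (Nat.unpair_pair j i)⟩)
    have h2 := StarSubalgebra.topologicalClosure_minimal hle hcl
    rw [(hs j).gen] at h2
    exact h2 (show x ∈ (⊤ : StarSubalgebra ℂ (D j)) from trivial)

theorem nucLike_rfp {D : ℕ → Type} [∀ j, CStarAlgebra (D j)] {t : ∀ j, D j →ₗ[ℂ] ℂ}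
    {A : Type} [CStarAlgebra A] {φ : A →ₗ[ℂ] ℂ} {e : ∀ j, D j →⋆ₐ[ℂ] A}
    (h : IsRFP D (fun j => (t j : D j → ℂ)) φ e) (s : ∀ j, ℕ → D j) (hs : ∀ j, CuntzInf (s j))
    (h0 : ∀ j i, t j (s j i * star (s j i)) = 0) : NucLike A :=
  nucLike_cuntz (cuntz_rfp h s hs h0)

end Q89.RF
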