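import Pool.Agent.Q89.RF.St

/-! Pure states exist. -/

set_option autoImplicit false

open scoped ComplexConjugate ComplexOrder InnerProductSpace
open Finset Filter Topology

noncomputable section

namespace Q89.RF

theorem PF.eq_zero {A : Type} [CStarAlgebra A] {ψ : A →ₗ[ℂ] ℂ} (h : PF ψ) (h1 : ψ 1 = 0) (x : A) :
    ψ x = 0 := by
  have h2 := h.cs 1 x
  rw [star_one, one_mul, one_mul, h1, Complex.zero_re, zero_mul] at h2
  have := le_antisymm h2 (sq_nonneg _)
  exact norm_eq_zero.1 (pow_eq_zero_iff two_ne_zero |>.1 this)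

theorem exists_pure (A : Type) [CStarAlgebra A] [Nontrivial A] :
    ∃ f : A →ₗ[ℂ] ℂ, IsSt f ∧ Pure f := by
  let K : Set (A → ℂ) := {F | (∀ x y, F (x + y) = F x + F y) ∧ (∀ (r : ℂ) x, F (r • x) = r * F x) ∧
    (∀ x, 0 ≤ F (star x * x)) ∧ F 1 = 1}
  let mk : ∀ F ∈ K, A →ₗ[ℂ] ℂ := fun F hF =>
    { toFun := F, map_add' := hF.1, map_smul' := by intro r x; simpa using hF.2.1 r x }
  have mkSt : ∀ F (hF : F ∈ K), IsSt (mk F hF) := fun F hF => ⟨hF.2.2.2, hF.2.2.1⟩
  have hof : ∀ f : A →ₗ[ℂ] ℂ, IsSt f → (fun x => f x) ∈ K := by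
    intro f hf
    exact ⟨fun x y => map_add f x y, fun r x => by simp, hf.pos, hf.one⟩
  have hKne : K.Nonempty := by
    obtain ⟨f, hf⟩ := exists_st A
    exact ⟨_, hof f hf⟩
  have hKclosed : IsClosed K := by
    have e : K = (⋂ x : A, ⋂ y : A, {F : A → ℂ | F (x + y) = F x + F y}) ∩
        (⋂ r : ℂ, ⋂ x : A, {F : A → ℂ | F (r • x) = r * F x}) ∩
        (⋂ x : A, {F : A → ℂ | 0 ≤ F (star x * x)}) ∩ {F | F 1 = 1} := by
      ext F
      simp only [K, Set.mem_ofPred_eq, Set.mem_inter_iff, Set.mem_iInter]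
      tauto
    rw [e]
    refine IsClosed.inter (IsClosed.inter (IsClosed.inter ?_ ?_) ?_) ?_
    · exact isClosed_iInter fun x => isClosed_iInter fun y =>
        isClosed_eq (by fun_prop) (by fun_prop)
    · exact isClosed_iInter fun r => isClosed_iInter fun x =>
        isClosed_eq (by fun_prop) (by fun_prop)
    · refine isClosed_iInter fun x => ?_
      have : {F : A → ℂ | 0 ≤ F (star x * x)} =
          (fun F : A → ℂ => F (star x * x)) ⁻¹' {z : ℂ | 0 ≤ z} := rfl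
      rw [this]
      exact (isClosed_Ici (a := (0 : ℂ))).preimage (continuous_apply _)
    · exact isClosed_eq (continuous_apply _) continuous_const
  have hKcomp : IsCompact K := by
    refine IsCompact.of_isClosed_subset
      (isCompact_univ_pi (fun x : A => isCompact_closedBall (0 : ℂ) ‖x‖)) hKclosed ?_
    intro F hF x _
    rw [Metric.mem_closedBall, dist_zero_right]
    have h := mkSt F hF
    exact PF.bound h.pos h.one x
  obtain ⟨F, hF⟩ := hKcomp.extremePoints_nonempty hKne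
  have hFK : F ∈ K := hF.1
  refine ⟨mk F hFK, mkSt F hFK, ?_⟩
  intro ψ hψ hle
  set f := mk F hFK with hfdef
  have hf : IsSt f := mkSt F hFK
  obtain ⟨l0, lim⟩ := Complex.nonneg_iff.1 (by simpa using hψ 1 : 0 ≤ ψ 1)
  set l := (ψ 1).re with hl
  have hψ1 : ψ 1 = (l : ℂ) := Complex.ext rfl (by rw [← lim]; simp)
  have hfg : PF (f - ψ) := by
    intro x
    rw [LinearMap.sub_apply, sub_nonneg]
    exact hle x
  have hl1 : l ≤ 1 := by
    have h2 := hfg 1
    rw [star_one, one_mul, LinearMap.sub_apply, hf.one, hψ1] at h2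
    have := (Complex.nonneg_iff.1 h2).1
    simpa using this
  rcases l0.eq_or_lt with h0 | h0
  · refine ⟨0, fun a => ?_⟩
    rw [zero_mul]
    exact hψ.eq_zero (by rw [hψ1, ← h0, Complex.ofReal_zero]) a
  rcases hl1.eq_or_lt with h1 | h1
  · refine ⟨1, fun a => ?_⟩
    have := hfg.eq_zero (by rw [LinearMap.sub_apply, hf.one, hψ1, h1, Complex.ofReal_one, sub_self]) a
    rw [LinearMap.sub_apply, sub_eq_zero] at this
    rw [one_mul, this]
  have h1l : 0 < 1 - l := by linarith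
  have hc0 : (l : ℂ) ≠ 0 := by exact_mod_cast h0.ne'
  have hc1 : ((1 - l : ℝ) : ℂ) ≠ 0 := by exact_mod_cast h1l.ne'
  have nn : ∀ (r : ℝ) (z : ℂ), 0 ≤ r → 0 ≤ z → 0 ≤ (r : ℂ) * z := by
    intro r z hr hz
    exact mul_nonneg (by exact_mod_cast hr) hz
  have s1 : IsSt (((l⁻¹ : ℝ) : ℂ) • ψ) := by
    refine ⟨?_, fun x => ?_⟩
    · rw [LinearMap.smul_apply, hψ1, smul_eq_mul, ← Complex.ofReal_mul, inv_mul_cancel₀ h0.ne',
        Complex.ofReal_one]
    · rw [LinearMap.smul_apply, smul_eq_mul]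
      exact nn _ _ (by positivity) (hψ x)
  have s2 : IsSt ((((1 - l)⁻¹ : ℝ) : ℂ) • (f - ψ)) := by
    refine ⟨?_, fun x => ?_⟩
    · rw [LinearMap.smul_apply, LinearMap.sub_apply, hψ1, hf.one, smul_eq_mul,
        ← Complex.ofReal_one, ← Complex.ofReal_sub, ← Complex.ofReal_mul,
        inv_mul_cancel₀ h1l.ne']
    · rw [LinearMap.smul_apply, smul_eq_mul]
      exact nn _ _ (by positivity) (hfg x)
  have hext := (mem_extremePoints.1 hF).2 _ (hof _ s1) _ (hof _ s2) (by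
    refine ⟨l, 1 - l, h0, h1l, by ring, ?_⟩
    funext x
    change (l : ℝ) • ((((l⁻¹ : ℝ) : ℂ) • ψ) x) + (1 - l : ℝ) •
      (((((1 - l)⁻¹ : ℝ) : ℂ) • (f - ψ)) x) = f x
    rw [LinearMap.smul_apply, LinearMap.smul_apply, LinearMap.sub_apply, smul_eq_mul,
      smul_eq_mul, Complex.real_smul, Complex.real_smul, ← mul_assoc, ← mul_assoc,
      ← Complex.ofReal_mul, ← Complex.ofReal_mul, mul_inv_cancel₀ h0.ne',
      mul_inv_cancel₀ h1l.ne', Complex.ofReal_one]
    ring)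
  refine ⟨(l : ℂ), fun a => ?_⟩
  have := congrFun hext.1 a
  have e : (((l⁻¹ : ℝ) : ℂ) • ψ) a = f a := this
  rw [← e, LinearMap.smul_apply, smul_eq_mul, ← mul_assoc, ← Complex.ofReal_mul,
    mul_inv_cancel₀ h0.ne', Complex.ofReal_one, one_mul]

end Q89.RF
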