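import Pool.Agent.Q89.RF.Pos

/-! A weak form of nuclearity, and the Cuntz algebra `O_∞`. -/

set_option autoImplicit false

open scoped ComplexConjugate ComplexOrder InnerProductSpace
open Finset

noncomputable section

namespace Q89.RF

/-- positivity -/
def NN {A : Type} [CStarAlgebra A] (x : A) : Prop := ∃ c, x = star c * c

/-- 2-positivity -/
def CP2 {B A : Type} [CStarAlgebra B] [CStarAlgebra A] (θ : B →ₗ[ℂ] A) : Prop :=
  ∀ (X Y : B) (a b : A), NN (star a * θ (star X * X) * a + star a * θ (star X * Y) * b +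
    star b * θ (star Y * X) * a + star b * θ (star Y * Y) * b)

/-- a weak form of nuclearity -/
def NucLike (A : Type) [CStarAlgebra A] : Prop :=
  ∀ (K : Type) [NormedAddCommGroup K] [InnerProductSpace ℂ K] [CompleteSpace K] [Nontrivial K]
    (π : A →⋆ₐ[ℂ] (K →L[ℂ] K)) (F : Finset A) (ε : ℝ), 0 < ε →
    ∃ θ : (K →L[ℂ] K) →ₗ[ℂ] A, CP2 θ ∧ ∀ a ∈ F, ‖θ (π a) - a‖ < ε

section order

variable {A : Type} [CStarAlgebra A]

theorem NN.add {x y : A} (hx : NN x) (hy : NN y) : NN (x + y) := by
  let _ : PartialOrder A := CStarAlgebra.spectralOrder A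
  have : StarOrderedRing A := CStarAlgebra.spectralOrderedRing A
  obtain ⟨c, rfl⟩ := hx
  obtain ⟨d, rfl⟩ := hy
  exact CStarAlgebra.nonneg_iff_eq_star_mul_self.1
    (add_nonneg (star_mul_self_nonneg c) (star_mul_self_nonneg d))

theorem NN.zero : NN (0 : A) := ⟨0, by simp⟩

theorem NN.mul_star (x : A) : NN (x * star x) := ⟨star x, by rw [star_star]⟩

theorem NN.sum {ι : Type} (S : Finset ι) (f : ι → A) (h : ∀ i ∈ S, NN (f i)) :
    NN (∑ i ∈ S, f i) := by
  classical
  induction S using Finset.induction_on with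
  | empty => simpa using NN.zero
  | insert i S hi ih =>
    rw [Finset.sum_insert hi]
    exact (h i (mem_insert_self _ _)).add (ih fun j hj => h j (mem_insert_of_mem hj))

theorem NN.smul {x : A} (hx : NN x) (r : ℝ) (hr : 0 ≤ r) : NN ((r : ℂ) • x) := by
  obtain ⟨c, rfl⟩ := hx
  refine ⟨((Real.sqrt r : ℝ) : ℂ) • c, ?_⟩
  rw [star_smul, smul_mul_smul_comm, Complex.star_def, Complex.conj_ofReal, ← Complex.ofReal_mul,
    Real.mul_self_sqrt hr]

end order

/-- Gram matrices -/
theorem gram_nn {A : Type} [CStarAlgebra A] {K : Type} [NormedAddCommGroup K]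
    [InnerProductSpace ℂ K] {ι : Type} [Fintype ι] (v : ι → K) (c : ι → A) :
    NN (∑ i, ∑ j, ⟪v i, v j⟫_ℂ • (c i * star (c j))) := by
  classical
  obtain ⟨m, w, hw⟩ := Matrix.posSemidef_iff_eq_sum_vecMulVec.1 (Matrix.posSemidef_gram (𝕜 := ℂ) v)
  have hG : ∀ i j, ⟪v i, v j⟫_ℂ = ∑ l, w l i * conj (w l j) := by
    intro i j
    have := congrFun (congrFun hw i) j
    rw [Matrix.gram_apply] at this
    rw [this, Matrix.sum_apply]
    rfl
  have : (∑ i, ∑ j, ⟪v i, v j⟫_ℂ • (c i * star (c j))) =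
      ∑ l, (∑ i, w l i • c i) * star (∑ j, w l j • c j) := by
    simp only [hG]
    have h1 : ∀ i j, (∑ l, w l i * conj (w l j)) • (c i * star (c j)) =
        ∑ l, (w l i • c i) * star (w l j • c j) := by
      intro i j
      rw [Finset.sum_smul]
      refine Finset.sum_congr rfl fun l _ => ?_
      rw [star_smul, smul_mul_smul_comm, Complex.star_def]
    simp only [h1]
    have h2 : ∀ i, (∑ j, ∑ l, (w l i • c i) * star (w l j • c j)) =
        ∑ l, ∑ j, (w l i • c i) * star (w l j • c j) := fun i => Finset.sum_comm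
    simp only [h2]
    rw [Finset.sum_comm]
    refine Finset.sum_congr rfl fun l _ => ?_
    rw [star_sum, Finset.sum_mul_sum]
  rw [this]
  exact NN.sum _ _ fun l _ => NN.mul_star _

/-- elementary completely positive maps -/
theorem cp2_elem {A : Type} [CStarAlgebra A] {K : Type} [NormedAddCommGroup K]
    [InnerProductSpace ℂ K] [CompleteSpace K] {P : Type} (S : Finset P) (η : P → K) (b : P → A)
    (θ : (K →L[ℂ] K) →ₗ[ℂ] A)
    (hθ : ∀ T, θ T = ∑ p ∈ S, ∑ q ∈ S, ⟪η p, T (η q)⟫_ℂ • (b p * star (b q))) : CP2 θ := by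
  classical
  intro X Y a c
  have h1 := gram_nn (fun i : S × Bool => cond i.2 (X (η i.1)) (Y (η i.1)))
    (fun i : S × Bool => cond i.2 (star a * b i.1) (star c * b i.1))
  convert h1 using 1
  have hin : ∀ (X Y : K →L[ℂ] K) (p q : P), ⟪η p, (star X * Y) (η q)⟫_ℂ = ⟪X (η p), Y (η q)⟫_ℂ := by
    intro X Y p q
    rw [ContinuousLinearMap.star_eq_adjoint]
    exact ContinuousLinearMap.adjoint_inner_right X (η p) (Y (η q))
  have hS : ∀ f : P → A, ∑ p ∈ S, f p = ∑ p : S, f p := fun f => (Finset.sum_coe_sort S f).symm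
  simp only [Fintype.sum_prod_type, Fintype.sum_bool, cond_true, cond_false, hθ, hin, hS]
  simp only [Finset.mul_sum, Finset.sum_mul, Finset.sum_add_distrib, star_mul, star_star,
    mul_smul_comm, smul_mul_assoc, mul_assoc]
  abel

theorem CP2.add {B A : Type} [CStarAlgebra B] [CStarAlgebra A] {θ θ' : B →ₗ[ℂ] A} (h : CP2 θ)
    (h' : CP2 θ') : CP2 (θ + θ') := by
  intro X Y a b
  have := (h X Y a b).add (h' X Y a b)
  convert this using 1
  simp only [LinearMap.add_apply, mul_add, add_mul]
  abel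

theorem CP2.zero {B A : Type} [CStarAlgebra B] [CStarAlgebra A] : CP2 (0 : B →ₗ[ℂ] A) := by
  intro X Y a b
  simpa using NN.zero

theorem CP2.sum {B A : Type} [CStarAlgebra B] [CStarAlgebra A] {ι : Type} (S : Finset ι)
    (θ : ι → B →ₗ[ℂ] A) (h : ∀ i ∈ S, CP2 (θ i)) : CP2 (∑ i ∈ S, θ i) := by
  classical
  induction S using Finset.induction_on with
  | empty => simpa using CP2.zero
  | insert i S hi ih =>
    rw [Finset.sum_insert hi]
    exact (h i (mem_insert_self _ _)).add (ih fun j hj => h j (mem_insert_of_mem hj))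

theorem CP2.smul {B A : Type} [CStarAlgebra B] [CStarAlgebra A] {θ : B →ₗ[ℂ] A} (h : CP2 θ)
    (r : ℝ) (hr : 0 ≤ r) : CP2 ((r : ℂ) • θ) := by
  intro X Y a b
  have := (h X Y a b).smul r hr
  convert this using 1
  simp only [LinearMap.smul_apply, mul_smul_comm, smul_mul_assoc, smul_add]

/-- 2-positive maps are positive and hermitian -/
theorem CP2.pos {B A : Type} [CStarAlgebra B] [CStarAlgebra A] {θ : B →ₗ[ℂ] A} (h : CP2 θ)
    (X : B) : NN (θ (star X * X)) := by
  have := h X 0 1 0
  simpa using this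

theorem CP2.map_st {B A : Type} [CStarAlgebra B] [CStarAlgebra A] {θ : B →ₗ[ℂ] A} (h : CP2 θ)
    (X : B) : θ (star X) = star (θ X) := by
  have hsa : ∀ x : A, NN x → Star.star x = x := by
    rintro _ ⟨c, rfl⟩
    rw [star_mul, star_star]
  have h1 := hsa _ (h.pos (1 + X))
  have h2 := hsa _ (h.pos (1 + Complex.I • X))
  have h3 := hsa _ (h.pos 1)
  have h4 := hsa _ (h.pos X)
  have e1 : θ (Star.star (1 + X) * (1 + X)) = θ 1 + θ X + θ (Star.star X) +
      θ (Star.star X * X) := by
    rw [star_add, star_one, add_mul, one_mul, mul_add, mul_one, map_add, map_add, map_add]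
    abel
  have e2 : θ (Star.star (1 + Complex.I • X) * (1 + Complex.I • X)) =
      θ 1 + Complex.I • θ X - Complex.I • θ (Star.star X) + θ (Star.star X * X) := by
    rw [star_add, star_one, star_smul, add_mul, one_mul, mul_add, mul_one, map_add, map_add,
      map_add, map_smul, map_smul, smul_mul_assoc, mul_smul_comm, smul_smul, map_smul]
    simp only [Complex.star_def, Complex.conj_I]
    have : -Complex.I * Complex.I = 1 := by rw [neg_mul, Complex.I_mul_I, neg_neg]
    rw [this]
    module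
  rw [e1] at h1
  rw [e2] at h2
  rw [star_one, one_mul] at h3
  simp only [star_add, star_sub, star_smul, h3, h4, Complex.star_def, Complex.conj_I] at h1 h2
  have k1 : Star.star (θ X) + Star.star (θ (Star.star X)) = θ X + θ (Star.star X) := by
    have := congrArg (fun z => z - θ 1 - θ (Star.star X * X)) h1
    have a1 : θ 1 + Star.star (θ X) + Star.star (θ (Star.star X)) + θ (Star.star X * X) - θ 1 -
      θ (Star.star X * X) = Star.star (θ X) + Star.star (θ (Star.star X)) := by abel
    have a2 : θ 1 + θ X + θ (Star.star X) + θ (Star.star X * X) - θ 1 -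
      θ (Star.star X * X) = θ X + θ (Star.star X) := by abel
    rwa [a1, a2] at this
  have k2 : Star.star (θ X) - Star.star (θ (Star.star X)) = - (θ X - θ (Star.star X)) := by
    have := congrArg (fun z => Complex.I • (z - θ 1 - θ (Star.star X * X))) h2
    have a1 : Complex.I • (θ 1 + -Complex.I • Star.star (θ X) - -Complex.I • Star.star (θ (Star.star X)) +
      θ (Star.star X * X) - θ 1 - θ (Star.star X * X)) =
        (-(Complex.I * Complex.I)) • (Star.star (θ X) - Star.star (θ (Star.star X))) := by module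
    have a2 : Complex.I • (θ 1 + Complex.I • θ X - Complex.I • θ (Star.star X) +
      θ (Star.star X * X) - θ 1 - θ (Star.star X * X)) =
        (Complex.I * Complex.I) • (θ X - θ (Star.star X)) := by module
    rw [a1, a2, Complex.I_mul_I, neg_neg, one_smul, neg_one_smul] at this
    exact this
  have k3 : (2 : ℂ) • Star.star (θ X) = (2 : ℂ) • θ (Star.star X) := by
    have : (2 : ℂ) • Star.star (θ X) = (Star.star (θ X) + Star.star (θ (Star.star X))) +
      (Star.star (θ X) - Star.star (θ (Star.star X))) := by module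
    rw [this, k1, k2]
    module
  exact ((smul_right_injective A (two_ne_zero (α := ℂ))) k3).symm

/-- Schwarz inequality, contractivity -/
theorem CP2.contr {B A : Type} [CStarAlgebra B] [CStarAlgebra A] {θ : B →ₗ[ℂ] A} (h : CP2 θ)
    (h1 : θ 1 = 1) (X : B) : ‖θ X‖ ≤ ‖X‖ := by
  rcases subsingleton_or_nontrivial A with hA | hA
  · rw [Subsingleton.elim (θ X) 0, norm_zero]; exact norm_nonneg _
  let _ : PartialOrder A := CStarAlgebra.spectralOrder A
  have : StarOrderedRing A := CStarAlgebra.spectralOrderedRing A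
  let _ : PartialOrder B := CStarAlgebra.spectralOrder B
  have : StarOrderedRing B := CStarAlgebra.spectralOrderedRing B
  have hnn : ∀ {x : A}, NN x → 0 ≤ x := by
    rintro _ ⟨c, rfl⟩
    exact star_mul_self_nonneg c
  have k1 := hnn (h X 1 1 (-θ X))
  rw [star_one, star_one, star_neg, one_mul, mul_one, mul_one, one_mul, one_mul, mul_one (1 : B), h1,
    h.map_st X] at k1
  have k2 : star (θ X) * θ X ≤ θ (star X * X) := by
    rw [← sub_nonneg]
    convert k1 using 1
    noncomm_ring
  have k3 : θ (star X * X) ≤ algebraMap ℝ A (‖X‖ ^ 2) := by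
    have a1 : star X * X ≤ algebraMap ℝ B (‖X‖ ^ 2) := by
      have := (IsSelfAdjoint.star_mul_self X).le_algebraMap_norm_self
      rwa [CStarRing.norm_star_mul_self, ← sq] at this
    obtain ⟨d, hd⟩ := CStarAlgebra.nonneg_iff_eq_star_mul_self.1 (sub_nonneg.2 a1)
    have a2 := hnn (h.pos d)
    rw [← hd, map_sub, sub_nonneg] at a2
    refine a2.trans (le_of_eq ?_)
    rw [Algebra.algebraMap_eq_smul_one, Algebra.algebraMap_eq_smul_one, ← Complex.coe_smul,
      ← Complex.coe_smul, map_smul, h1]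
  have k4 := CStarAlgebra.norm_le_norm_of_nonneg_of_le (star_mul_self_nonneg (θ X)) (k2.trans k3)
  rw [CStarRing.norm_star_mul_self, norm_algebraMap', Real.norm_of_nonneg (by positivity),
    ← sq] at k4
  exact (pow_le_pow_iff_left₀ (norm_nonneg _) (norm_nonneg _) two_ne_zero).1 k4

/-- invariance under isomorphisms -/
theorem NucLike.iso {A A' : Type} [CStarAlgebra A] [CStarAlgebra A'] (h : NucLike A)
    (Φ : A ≃⋆ₐ[ℂ] A') : NucLike A' := by
  classical
  intro K _ _ _ _ π F ε hε
  obtain ⟨θ, hθ, hF⟩ := h K (π.comp (Φ : A →⋆ₐ[ℂ] A')) (F.image Φ.symm) ε hε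
  refine ⟨((Φ : A →⋆ₐ[ℂ] A') : A →ₗ[ℂ] A').comp θ, ?_, ?_⟩
  · intro X Y a b
    obtain ⟨c, hc⟩ := hθ X Y (Φ.symm a) (Φ.symm b)
    refine ⟨Φ c, ?_⟩
    have := congrArg Φ hc
    simp only [map_add, map_mul, map_star, StarAlgEquiv.apply_symm_apply] at this
    exact this
  · intro a ha
    have h1 := hF (Φ.symm a) (Finset.mem_image_of_mem _ ha)
    have h2 : (π.comp (Φ : A →⋆ₐ[ℂ] A')) (Φ.symm a) = π a := by
      change π (Φ (Φ.symm a)) = π a
      rw [StarAlgEquiv.apply_symm_apply]
    rw [h2] at h1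
    have hn : ∀ x : A, ‖Φ x‖ = ‖x‖ := fun x =>
      NonUnitalStarAlgHom.norm_map (Φ : A →⋆ₐ[ℂ] A') (EquivLike.injective Φ) x
    change ‖Φ (θ (π a)) - a‖ < ε
    have h3 : Φ (θ (π a)) - a = Φ (θ (π a) - Φ.symm a) := by
      rw [map_sub, StarAlgEquiv.apply_symm_apply]
    rw [h3, hn]
    exact h1

end Q89.RF
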