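import Pool.Agent.Q89.RF.St
import Pool.Agent.W408.SR.Op

/-! The Cuntz algebra `O_∞` exists. -/

set_option autoImplicit false

open scoped ComplexConjugate ComplexOrder InnerProductSpace
open Finset Filter Topology

noncomputable section

namespace Q89.RF

open Pool.Agent.W408.SR (BB VV VV_self VV_disj)

/-- the isometries -/
def Vi (i : ℕ) : BB := VV (fun n => Nat.pair i n) (fun _ _ h => (Nat.pair_eq_pair.1 h).2)

/-- the closed subalgebra generated by the isometries -/
def OT : StarSubalgebra ℂ BB := (StarAlgebra.adjoin ℂ (Set.range Vi)).topologicalClosure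

instance : IsClosed ((OT : StarSubalgebra ℂ BB) : Set BB) :=
  StarSubalgebra.isClosed_topologicalClosure _

instance : CStarAlgebra OT := inferInstance

/-- the generators -/
def si (i : ℕ) : OT := ⟨Vi i, StarSubalgebra.le_topologicalClosure _
  (StarAlgebra.subset_adjoin ℂ _ ⟨i, rfl⟩)⟩

theorem cuntz_si : CuntzInf si where
  iso i := Subtype.ext (VV_self _ _)
  orth i j hij := Subtype.ext (VV_disj _ _ _ _ fun k l h => hij (Nat.pair_eq_pair.1 h).1)
  gen := by
    rw [eq_top_iff]
    rintro x -
    have hx : (x : BB) ∈ closure ((StarAlgebra.adjoin ℂ (Set.range Vi) : StarSubalgebra ℂ BB) :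
      Set BB) := x.2
    have h1 : (StarAlgebra.adjoin ℂ (Set.range si)).map (OT.subtype) =
        StarAlgebra.adjoin ℂ (Set.range Vi) := by
      rw [StarAlgHom.map_adjoin, ← Set.range_comp]
      rfl
    change x ∈ closure ((StarAlgebra.adjoin ℂ (Set.range si) : StarSubalgebra ℂ OT) : Set OT)
    rw [Topology.IsEmbedding.subtypeVal.closure_eq_preimage_closure_image]
    change (x : BB) ∈ closure (Subtype.val '' _)
    rw [← h1] at hx
    exact hx

theorem exists_oinf : ∃ (O : Type) (_ : CStarAlgebra O), Nontrivial O ∧ ∃ s : ℕ → O, CuntzInf s := by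
  refine ⟨OT, inferInstance, ⟨0, 1, fun h => ?_⟩, si, cuntz_si⟩
  have h1 : (0 : BB) = 1 := congrArg Subtype.val h
  have h2 := congrArg (fun T : BB => ⟪Pool.Agent.W408.SR.ee 0, T (Pool.Agent.W408.SR.ee 0)⟫_ℂ) h1
  simp only [zero_apply, one_apply_eq_self, inner_zero_right, Pool.Agent.W408.SR.inner_ee] at h2
  simp at h2

end Q89.RF
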