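import Pool.Agent.Q89.RF.Gen
import Pool.Agent.Helper832.CD.J6a

/-! Two states on algebras generated by isometries with orthogonal ranges. -/

set_option autoImplicit false

open scoped ComplexConjugate ComplexOrder InnerProductSpace
open Finset Filter Topology

noncomputable section

namespace Q89.RF

/-- states exist -/
theorem exists_st (A : Type) [CStarAlgebra A] [Nontrivial A] : ∃ f : A →ₗ[ℂ] ℂ, IsSt f := by
  let _ : PartialOrder A := CStarAlgebra.spectralOrder A
  have : StarOrderedRing A := CStarAlgebra.spectralOrderedRing A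
  obtain ⟨f, hf⟩ := Pool.Agent.Helper832.CD.J6a.CDst.exists_state (1 : A) zero_le_one
  refine ⟨(f : A →ₗ[ℂ] ℂ), ?_, fun x => ?_⟩
  · change f 1 = 1
    rw [hf, CStarRing.norm_one]
    simp
  · change 0 ≤ f (star x * x)
    have h1 := f.monotone' (star_mul_self_nonneg x)
    have h2 : f 0 ≤ f (star x * x) := h1
    rwa [map_zero] at h2

section

variable {A : Type} [CStarAlgebra A] {s : ℕ → A}

/-- compression of a state by an isometry -/
def cpr (f : A →ₗ[ℂ] ℂ) (v : A) : A →ₗ[ℂ] ℂ where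
  toFun a := f (star v * a * v)
  map_add' a b := by rw [mul_add, add_mul, map_add]
  map_smul' c a := by rw [mul_smul_comm, smul_mul_assoc, map_smul, RingHom.id_apply]

theorem cpr_st {f : A →ₗ[ℂ] ℂ} (hf : IsSt f) {v : A} (hv : star v * v = 1) : IsSt (cpr f v) where
  one := by
    change f (star v * 1 * v) = 1
    rw [mul_one, hv, hf.one]
  pos x := by
    change 0 ≤ f (star v * (star x * x) * v)
    have := hf.pos (x * v)
    rw [star_mul] at this
    simpa only [mul_assoc] using this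

/-- the second state -/
def om2 (f : A →ₗ[ℂ] ℂ) (s : ℕ → A) : A →ₗ[ℂ] ℂ := (1 / 2 : ℂ) • (cpr f (s 0) + cpr f (s 1))

theorem om2_apply (f : A →ₗ[ℂ] ℂ) (s : ℕ → A) (a : A) : om2 f s a =
    1 / 2 * (f (star (s 0) * a * s 0) + f (star (s 1) * a * s 1)) := rfl

/-- the unitary -/
def uu (s : ℕ → A) : A := (2 : ℂ) • (s 0 * star (s 0)) - 1

theorem uu_sa (s : ℕ → A) : star (uu s) = uu s := by
  rw [uu, star_sub, star_smul, star_mul, star_star, star_one]
  congr 2
  simp

theorem uu_sq (hs : CuntzInf s) : uu s * uu s = 1 := by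
  have h1 : (s 0 * star (s 0)) * (s 0 * star (s 0)) = s 0 * star (s 0) := by
    rw [mul_assoc, ← mul_assoc (star (s 0)), hs.iso, one_mul]
  rw [uu, sub_mul, mul_sub, smul_mul_smul_comm, h1, mul_one, one_mul]
  module

theorem om2_st {f : A →ₗ[ℂ] ℂ} (hf : IsSt f) (hs : CuntzInf s) : IsSt (om2 f s) where
  one := by
    have h1 : om2 f s 1 = 1 / 2 * (cpr f (s 0) 1 + cpr f (s 1) 1) := rfl
    rw [h1, (cpr_st hf (hs.iso 0)).one, (cpr_st hf (hs.iso 1)).one]
    norm_num
  pos x := by
    have h1 : om2 f s (star x * x) = 1 / 2 * (cpr f (s 0) (star x * x) + cpr f (s 1) (star x * x)) :=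
      rfl
    rw [h1]
    have h2 : (0 : ℂ) ≤ 1 / 2 := by
      have : (1 / 2 : ℂ) = ((1 / 2 : ℝ) : ℂ) := by push_cast; ring
      rw [this]
      exact_mod_cast (by norm_num : (0 : ℝ) ≤ 1 / 2)
    exact mul_nonneg h2 (add_nonneg ((cpr_st hf (hs.iso 0)).pos x) ((cpr_st hf (hs.iso 1)).pos x))

theorem om2_facts (f : A →ₗ[ℂ] ℂ) (hs : CuntzInf s) :
    star (s 0) * uu s = star (s 0) ∧ uu s * s 0 = s 0 ∧ star (s 1) * uu s = - star (s 1) ∧
      uu s * s 1 = - s 1 := by
  refine ⟨?_, ?_, ?_, ?_⟩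
  · rw [uu, mul_sub, mul_smul_comm, ← mul_assoc, hs.iso, one_mul, mul_one]
    module
  · rw [uu, sub_mul, smul_mul_assoc, mul_assoc, hs.iso, one_mul, mul_one]
    module
  · rw [uu, mul_sub, mul_smul_comm, ← mul_assoc, hs.orth 1 0 (by norm_num), zero_mul, mul_one]
    module
  · rw [uu, sub_mul, smul_mul_assoc, mul_assoc, hs.orth 0 1 (by norm_num), mul_zero, one_mul]
    module

theorem om2_cen (f : A →ₗ[ℂ] ℂ) (hs : CuntzInf s) : Cen (om2 f s) (uu s) := by
  intro a
  obtain ⟨h1, h2, h3, h4⟩ := om2_facts f hs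
  rw [om2_apply, om2_apply]
  have e1 : star (s 0) * (uu s * a) * s 0 = star (s 0) * a * s 0 := by
    rw [← mul_assoc (star (s 0)), h1]
  have e2 : star (s 0) * (a * uu s) * s 0 = star (s 0) * a * s 0 := by
    rw [← mul_assoc (star (s 0)), mul_assoc, h2]
  have e3 : star (s 1) * (uu s * a) * s 1 = - (star (s 1) * a * s 1) := by
    rw [← mul_assoc (star (s 1)), h3, neg_mul, neg_mul]
  have e4 : star (s 1) * (a * uu s) * s 1 = - (star (s 1) * a * s 1) := by
    rw [← mul_assoc (star (s 1)), mul_assoc, h4, mul_neg]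
  rw [e1, e2, e3, e4]

theorem om2_uu {f : A →ₗ[ℂ] ℂ} (hf : IsSt f) (hs : CuntzInf s) : om2 f s (uu s) = 0 := by
  obtain ⟨h1, h2, h3, h4⟩ := om2_facts f hs
  rw [om2_apply, h1, h3, hs.iso, neg_mul, hs.iso, map_neg, add_neg_cancel, mul_zero]

/-- two continuous functionals which agree on the words are equal -/
theorem ext_sp (hs : CuntzInf s) {f g : A →ₗ[ℂ] ℂ} (hf : Continuous f) (hg : Continuous g)
    (h : ∀ α β, f (sw s α * star (sw s β)) = g (sw s α * star (sw s β))) (x : A) : f x = g x := by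
  have h2 : ∀ y ∈ SP s, f y = g y := by
    intro y hy
    induction hy using Submodule.span_induction with
    | mem x hx => obtain ⟨α, β, rfl⟩ := hx; exact h α β
    | zero => rw [map_zero, map_zero]
    | add x y _ _ hx hy => rw [map_add, map_add, hx, hy]
    | smul c x _ hx => rw [map_smul, map_smul, hx]
  exact (isClosed_eq hf hg).closure_subset_iff.2 h2 (sp_dense hs x)

/-- **The vacuum state.** -/
theorem exists_vac {f : A →ₗ[ℂ] ℂ} (hf : IsSt f) (hs : CuntzInf s) :
    ∃ w : A →ₗ[ℂ] ℂ, IsSt w ∧ ∀ α β : List ℕ, (α ≠ [] ∨ β ≠ []) → w (sw s α * star (sw s β)) = 0 := by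
  have hst : ∀ N, IsSt (cpr f (s N)) := fun N => cpr_st hf (hs.iso N)
  -- eventually constant on the words
  have hw : ∀ α β : List ℕ, (α ≠ [] ∨ β ≠ []) → ∃ N0, ∀ N ≥ N0,
      cpr f (s N) (sw s α * star (sw s β)) = 0 := by
    intro α β hab
    cases α with
    | cons i α =>
      refine ⟨i + 1, fun N hN => ?_⟩
      change f (star (s N) * (sw s (i :: α) * star (sw s β)) * s N) = 0
      rw [sw_cons]
      have : star (s N) * (s i * sw s α * star (sw s β)) * s N =
          (star (s N) * s i) * (sw s α * star (sw s β) * s N) := by simp only [mul_assoc]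
      rw [this, hs.orth N i (by omega), zero_mul, map_zero]
    | nil =>
      cases β with
      | nil => simp at hab
      | cons i β =>
        refine ⟨i + 1, fun N hN => ?_⟩
        change f (star (s N) * (sw s [] * star (sw s (i :: β))) * s N) = 0
        rw [sw_cons, sw_nil, star_mul]
        have : star (s N) * (1 * (star (sw s β) * star (s i))) * s N =
          (star (s N) * star (sw s β)) * (star (s i) * s N) := by simp only [mul_assoc, one_mul]
        rw [this, hs.orth i N (by omega), mul_zero, map_zero]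
  have hsp : ∀ x ∈ SP s, ∃ c : ℂ, ∃ N0, ∀ N ≥ N0, cpr f (s N) x = c := by
    intro x hx
    induction hx using Submodule.span_induction with
    | mem x hx =>
      obtain ⟨α, β, rfl⟩ := hx
      by_cases hab : α ≠ [] ∨ β ≠ []
      · obtain ⟨N0, h0⟩ := hw α β hab
        exact ⟨0, N0, h0⟩
      · rw [not_or, not_not, not_not] at hab
        obtain ⟨rfl, rfl⟩ := hab
        refine ⟨1, 0, fun N _ => ?_⟩
        rw [sw_nil, star_one, mul_one]
        exact (hst N).one
    | zero => exact ⟨0, 0, fun N _ => map_zero _⟩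
    | add x y _ _ hx hy =>
      obtain ⟨c, N1, h1⟩ := hx
      obtain ⟨d, N2, h2⟩ := hy
      refine ⟨c + d, max N1 N2, fun N hN => ?_⟩
      rw [map_add, h1 N (le_of_max_le_left hN), h2 N (le_of_max_le_right hN)]
    | smul c x _ hx =>
      obtain ⟨d, N1, h1⟩ := hx
      exact ⟨c * d, N1, fun N hN => by rw [map_smul, h1 N hN, smul_eq_mul]⟩
  have hlim : ∀ x : A, ∃ y : ℂ, Tendsto (fun N => cpr f (s N) x) atTop (𝓝 y) := by
    intro x
    apply cauchySeq_tendsto_of_complete
    rw [Metric.cauchySeq_iff']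
    intro ε hε
    obtain ⟨z, hz, hxz⟩ := Metric.mem_closure_iff.1 (sp_dense hs x) (ε / 2) (by positivity)
    obtain ⟨c, N0, h0⟩ := hsp z hz
    rw [dist_eq_norm] at hxz
    refine ⟨N0, fun N hN => ?_⟩
    have key : ∀ M ≥ N0, ‖cpr f (s M) x - c‖ < ε / 2 := by
      intro M hM
      rw [← h0 M hM, ← map_sub]
      exact (PF.bound (hst M).pos (hst M).one _).trans_lt hxz
    rw [dist_eq_norm]
    have e : cpr f (s N) x - cpr f (s N0) x = (cpr f (s N) x - c) - (cpr f (s N0) x - c) := by ring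
    rw [e]
    calc _ ≤ ‖cpr f (s N) x - c‖ + ‖cpr f (s N0) x - c‖ := norm_sub_le _ _
      _ < ε / 2 + ε / 2 := add_lt_add (key N hN) (key N0 le_rfl)
      _ = ε := by ring
  choose w hwl using hlim
  let W : A →ₗ[ℂ] ℂ := linearMapOfTendsto w (fun N => cpr f (s N)) (tendsto_pi_nhds.2 hwl)
  have hW : ∀ x, W x = w x := fun x => rfl
  refine ⟨W, ⟨?_, ?_⟩, ?_⟩
  · rw [hW]
    refine tendsto_nhds_unique (hwl 1) ?_
    simp only [(hst _).one]
    exact tendsto_const_nhds
  · intro x
    rw [hW]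
    exact ge_of_tendsto' (hwl _) fun N => (hst N).pos x
  · intro α β hab
    rw [hW]
    obtain ⟨N0, h0⟩ := hw α β hab
    refine tendsto_nhds_unique (hwl _) (tendsto_const_nhds.congr' ?_)
    filter_upwards [eventually_ge_atTop N0] with N hN
    exact (h0 N hN).symm

theorem vac_zero {w : A →ₗ[ℂ] ℂ} (hw : ∀ α β : List ℕ, (α ≠ [] ∨ β ≠ []) →
    w (sw s α * star (sw s β)) = 0) (i : ℕ) : w (s i * star (s i)) = 0 := by
  have := hw [i] [i] (Or.inl (by simp))
  rwa [sw_cons, sw_nil, mul_one] at this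

/-- the vacuum state is pure -/
theorem vac_pure (hs : CuntzInf s) {w : A →ₗ[ℂ] ℂ} (hst : IsSt w)
    (hw : ∀ α β : List ℕ, (α ≠ [] ∨ β ≠ []) → w (sw s α * star (sw s β)) = 0) : Pure w := by
  intro ψ hψ hle
  have h0 : ∀ α : List ℕ, α ≠ [] → (ψ (sw s α * star (sw s α))).re = 0 := by
    intro α hα
    have h1 := hle (star (sw s α))
    rw [star_star, hw α α (Or.inl hα)] at h1
    have h2 := hψ (star (sw s α))
    rw [star_star] at h2
    rw [le_antisymm h1 h2, Complex.zero_re]
  refine ⟨ψ 1, fun x => ?_⟩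
  have hPF : PF w := hst.pos
  refine ext_sp hs (g := (ψ 1) • w) hψ.cont (by
    have := hPF.cont
    exact this.const_smul (ψ 1)) ?_ x
  intro α β
  rw [LinearMap.smul_apply, smul_eq_mul]
  have hcs := hψ.cs (star (sw s α)) (star (sw s β))
  rw [star_star, star_star] at hcs
  by_cases hα : α = []
  · by_cases hβ : β = []
    · subst hα; subst hβ
      rw [sw_nil, star_one, mul_one, hst.one, mul_one]
    · rw [h0 β hβ, mul_zero] at hcs
      rw [hw α β (Or.inr hβ), mul_zero]
      have := le_antisymm hcs (sq_nonneg _)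
      exact norm_eq_zero.1 (pow_eq_zero_iff two_ne_zero |>.1 this)
  · rw [h0 α hα, zero_mul] at hcs
    rw [hw α β (Or.inl hα), mul_zero]
    have := le_antisymm hcs (sq_nonneg _)
    exact norm_eq_zero.1 (pow_eq_zero_iff two_ne_zero |>.1 this)

end

end Q89.RF
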